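import Pool.Agent.H98P.Orbit
import Pool.Agent.H981R2.Plain

/-!
Bridges with a marked index: a periodic path and a bridge.
-/

set_option autoImplicit false

namespace Pool.Agent.H98P

/-- bridges as functions on `ℕ` -/
structure BrN (n : ℕ) (w : ℕ → ℤ × ℤ) : Prop where
  zero : w 0 = 0
  step : ∀ i < n, |(w (i + 1)).1 - (w i).1| + |(w (i + 1)).2 - (w i).2| = 1
  inj : ∀ i j, i ≤ n → j ≤ n → w i = w j → i = j
  pos : ∀ i, 1 ≤ i → i ≤ n → 0 < (w i).1
  le : ∀ i, i ≤ n → (w i).1 ≤ (w n).1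

/-- extension by a constant -/
def ex {n : ℕ} (ω : Fin (n + 1) → ℤ × ℤ) : ℕ → ℤ × ℤ := fun i => ω ⟨min i n, by omega⟩

theorem ex_of_le {n : ℕ} (ω : Fin (n + 1) → ℤ × ℤ) {i : ℕ} (hi : i ≤ n) :
    ex ω i = ω ⟨i, by omega⟩ := by
  unfold ex
  congr 1
  apply Fin.ext
  exact min_eq_left hi

theorem brN_of {n : ℕ} {ω : Fin (n + 1) → ℤ × ℤ} (h : H981.IsBridge n ω) : BrN n (ex ω) := by
  obtain ⟨⟨h0, h1, h2⟩, h3⟩ := h
  have hpos : ∀ i, 1 ≤ i → i ≤ n → 0 < (ex ω i).1 ∧ (ex ω i).1 ≤ (ex ω n).1 := by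
    intro i hi hin
    rw [ex_of_le ω hin, ex_of_le ω le_rfl]
    exact h3 ⟨i, by omega⟩ (by
      intro h
      have := congrArg Fin.val h
      simp at this; omega)
  refine ⟨?_, ?_, ?_, fun i hi hin => (hpos i hi hin).1, ?_⟩
  · rw [ex_of_le ω (Nat.zero_le n)]; exact h0
  · intro i hi
    rw [ex_of_le ω (by omega : i + 1 ≤ n), ex_of_le ω hi.le]
    exact h1 ⟨i, hi⟩
  · intro i j hi hj hij
    rw [ex_of_le ω hi, ex_of_le ω hj] at hij
    have := congrArg Fin.val (h2 hij)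
    simpa using this
  · intro i hi
    rcases Nat.eq_zero_or_pos i with h | h
    · subst h
      have e : ex ω 0 = 0 := by rw [ex_of_le ω (Nat.zero_le n)]; exact h0
      rcases Nat.eq_zero_or_pos n with h' | h'
      · subst h'; exact le_rfl
      · rw [e]
        exact (hpos n h' le_rfl).1.le
    · exact (hpos i h hi).2

theorem BrN.to {n : ℕ} {w : ℕ → ℤ × ℤ} (h : BrN n w) :
    H981.IsBridge n (fun i : Fin (n + 1) => w i) := by
  refine ⟨⟨h.zero, ?_, ?_⟩, ?_⟩
  · intro i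
    exact h.step i i.2
  · intro i j hij
    exact Fin.ext (h.inj i j (by have := i.2; omega) (by have := j.2; omega) hij)
  · intro i hi
    have h1 : 1 ≤ (i : ℕ) := Nat.one_le_iff_ne_zero.mpr fun h => hi (Fin.ext h)
    have h2 : (i : ℕ) ≤ n := by have := i.2; omega
    exact ⟨h.pos i h1 h2, h.le i h2⟩

/-- cut indices of a bridge -/
def Cut (n : ℕ) (w : ℕ → ℤ × ℤ) (d : ℕ) : Prop :=
  (∀ i, i ≤ d → (w i).1 ≤ (w d).1) ∧ ∀ i, d < i → i ≤ n → (w d).1 < (w i).1

/-- cut indices of a path -/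
def CutZ (F : ℤ → ℤ × ℤ) (p : ℤ) : Prop :=
  (∀ i, i ≤ p → (F i).1 ≤ (F p).1) ∧ ∀ i, p < i → (F p).1 < (F i).1

theorem BrN.head {n d : ℕ} {w : ℕ → ℤ × ℤ} (h : BrN n w) (hd : d ≤ n) (hc : Cut n w d) :
    BrN d w :=
  ⟨h.zero, fun i hi => h.step i (by omega), fun i j hi hj => h.inj i j (by omega) (by omega),
    fun i hi hid => h.pos i hi (by omega), hc.1⟩

theorem BrN.tail {n d : ℕ} {w : ℕ → ℤ × ℤ} (h : BrN n w) (hd : d ≤ n) (hc : Cut n w d) :
    BrN (n - d) (fun i => w (d + i) - w d) := by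
  refine ⟨by simp, ?_, ?_, ?_, ?_⟩
  · intro i hi
    have := h.step (d + i) (by omega)
    have e : d + (i + 1) = d + i + 1 := by ring
    simp only [e]
    simpa using this
  · intro i j hi hj hij
    have := h.inj (d + i) (d + j) (by omega) (by omega) (sub_left_injective hij)
    omega
  · intro i hi hin
    have := hc.2 (d + i) (by omega) (by omega)
    simp only [Prod.fst_sub]
    omega
  · intro i hi
    have := h.le (d + i) (by omega)
    have e : d + (n - d) = n := by omega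
    simp only [e, Prod.fst_sub]
    omega

/-- periodic extension -/
def perx (d : ℕ) (w : ℕ → ℤ × ℤ) : ℤ → ℤ × ℤ := fun i => (i / (d : ℤ)) • w d + w (i % (d : ℤ)).toNat

theorem perx_eq {d : ℕ} (hd : 0 < d) {w : ℕ → ℤ × ℤ} (h0 : w 0 = 0) (q : ℤ) {r : ℕ}
    (hr : r ≤ d) : perx d w (q * d + r) = q • w d + w r := by
  have hd' : (0 : ℤ) < d := by exact_mod_cast hd
  rcases Nat.lt_or_ge r d with h | h
  · have e1 : (q * (d : ℤ) + r) / d = q := by
      rw [add_comm, Int.add_mul_ediv_right _ _ hd'.ne', Int.ediv_eq_zero_of_lt (by positivity)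
        (by exact_mod_cast h), zero_add]
    have e2 : (q * (d : ℤ) + r) % d = r := by
      rw [add_comm, Int.add_mul_emod_self_right, Int.emod_eq_of_lt (by positivity)
        (by exact_mod_cast h)]
    unfold perx
    rw [e1, e2, Int.toNat_natCast]
  · have hrd : r = d := le_antisymm hr h
    subst hrd
    have e1 : (q * (r : ℤ) + r) / r = q + 1 := by
      rw [show q * (r : ℤ) + r = 0 + (q + 1) * r by ring, Int.add_mul_ediv_right _ _ hd'.ne']
      simp
    have e2 : (q * (r : ℤ) + r) % r = 0 := by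
      rw [show q * (r : ℤ) + r = 0 + (q + 1) * r by ring, Int.add_mul_emod_self_right]
      simp
    unfold perx
    rw [e1, e2, Int.toNat_zero, h0, add_smul, one_smul, add_zero]

theorem exists_qr {d : ℕ} (hd : 0 < d) (i : ℤ) :
    ∃ (q : ℤ) (r : ℕ), r < d ∧ i = q * d + r := by
  have hd' : (0 : ℤ) < d := by exact_mod_cast hd
  refine ⟨i / d, (i % d).toNat, ?_, ?_⟩
  · have := Int.emod_lt_of_pos i hd'
    have := Int.emod_nonneg i hd'.ne'
    omega
  · rw [Int.toNat_of_nonneg (Int.emod_nonneg i hd'.ne')]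
    have := Int.emod_add_mul_ediv i d
    linarith

theorem exists_qr' {d : ℕ} (hd : 0 < d) (i : ℤ) :
    ∃ (q : ℤ) (r : ℕ), 1 ≤ r ∧ r ≤ d ∧ i = q * d + r := by
  obtain ⟨q, r, hr, h⟩ := exists_qr hd (i - 1)
  refine ⟨q, r + 1, by omega, by omega, ?_⟩
  push_cast
  linarith

section

variable {d : ℕ} {w : ℕ → ℤ × ℤ}

theorem perx_fst_gt (hd : 0 < d) (h : BrN d w) {q : ℤ} {r : ℕ} (h1 : 1 ≤ r) (h2 : r ≤ d) :
    q * (w d).1 < (perx d w (q * d + r)).1 ∧ (perx d w (q * d + r)).1 ≤ (q + 1) * (w d).1 := by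
  rw [perx_eq hd h.zero q h2]
  have a1 := h.pos r h1 h2
  have a2 := h.le r h2
  simp only [Prod.fst_add, Prod.smul_fst, smul_eq_mul]
  constructor
  · linarith
  · linarith

theorem perx_per (hd : 0 < d) (h : BrN d w) (c : ℤ) :
    IsPer d (w d) (fun j => perx d w (c + j) - perx d w c) := by
  have hT : 0 < (w d).1 := h.pos d hd le_rfl
  refine ⟨by simp, ?_, ?_, ?_⟩
  · intro k
    obtain ⟨q, r, hr, hk⟩ := exists_qr hd (c + k)
    have e1 : c + (k + 1) = q * d + ((r + 1 : ℕ) : ℤ) := by push_cast; linarith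
    rw [e1, hk, perx_eq hd h.zero q (by omega : r + 1 ≤ d), perx_eq hd h.zero q hr.le]
    have := h.step r hr
    simpa using this
  · intro i j hij
    have h1 : perx d w (c + i) = perx d w (c + j) := sub_left_injective hij
    obtain ⟨q, r, hr1, hr2, e1⟩ := exists_qr' hd (c + i)
    obtain ⟨q', r', hr1', hr2', e2⟩ := exists_qr' hd (c + j)
    have b1 := perx_fst_gt hd h (q := q) hr1 hr2
    have b2 := perx_fst_gt hd h (q := q') hr1' hr2'
    rw [← e1] at b1
    rw [← e2, ← h1] at b2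
    have hq : q = q' := by
      have c1 : q * (w d).1 < (q' + 1) * (w d).1 := b1.1.trans_le b2.2
      have c2 : q' * (w d).1 < (q + 1) * (w d).1 := b2.1.trans_le b1.2
      have c3 := lt_of_mul_lt_mul_right c1 hT.le
      have c4 := lt_of_mul_lt_mul_right c2 hT.le
      omega
    rw [e1, e2, perx_eq hd h.zero q hr2, perx_eq hd h.zero q' hr2', hq] at h1
    have h2 := h.inj r r' hr2 hr2' (add_right_injective _ h1)
    rw [hq, h2] at e1
    linarith
  · intro k
    obtain ⟨q, r, hr, hk⟩ := exists_qr hd (c + k)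
    have e1 : c + (k + d) = (q + 1) * d + (r : ℤ) := by
      rw [show (q + 1) * (d : ℤ) + r = (q * d + r) + d by ring, ← hk]; ring
    rw [e1, hk, perx_eq hd h.zero _ hr.le, perx_eq hd h.zero q hr.le, add_smul, one_smul]
    abel

theorem perx_nat (hd : 0 < d) (h : BrN d w) {i : ℕ} (hi : i ≤ d) : perx d w i = w i := by
  have := perx_eq hd h.zero 0 hi
  simpa using this

theorem perx_gt (hd : 0 < d) (h : BrN d w) {i : ℤ} (hi : (d : ℤ) < i) :
    (w d).1 < (perx d w i).1 := by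
  have hT : 0 < (w d).1 := h.pos d hd le_rfl
  obtain ⟨q, r, hr1, hr2, e1⟩ := exists_qr' hd i
  have b1 := (perx_fst_gt hd h (q := q) hr1 hr2).1
  rw [← e1] at b1
  have hq : 1 ≤ q := by
    by_contra hq
    have : q ≤ 0 := by omega
    have : q * (d : ℤ) ≤ 0 := by
      apply mul_nonpos_of_nonpos_of_nonneg this; positivity
    have : (r : ℤ) ≤ d := by exact_mod_cast hr2
    omega
  nlinarith

theorem perx_le (hd : 0 < d) (h : BrN d w) {i : ℤ} (hi : i ≤ (d : ℤ)) :
    (perx d w i).1 ≤ (w d).1 := by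
  have hT : 0 < (w d).1 := h.pos d hd le_rfl
  obtain ⟨q, r, hr1, hr2, e1⟩ := exists_qr' hd i
  have b1 := (perx_fst_gt hd h (q := q) hr1 hr2).2
  rw [← e1] at b1
  have hq : q ≤ 0 := by
    by_contra hq
    have h3 : 1 ≤ q := by omega
    have : (d : ℤ) ≤ q * d := by
      have : (0 : ℤ) < d := by exact_mod_cast hd
      nlinarith
    have : (1 : ℤ) ≤ r := by exact_mod_cast hr1
    omega
  nlinarith

theorem perx_nonpos (hd : 0 < d) (h : BrN d w) {i : ℤ} (hi : i ≤ 0) :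
    (perx d w i).1 ≤ 0 := by
  have hT : 0 < (w d).1 := h.pos d hd le_rfl
  obtain ⟨q, r, hr1, hr2, e1⟩ := exists_qr' hd i
  have b1 := (perx_fst_gt hd h (q := q) hr1 hr2).2
  rw [← e1] at b1
  have hq : q ≤ -1 := by
    by_contra hq
    have h3 : 0 ≤ q := by omega
    have : 0 ≤ q * (d : ℤ) := by positivity
    have : (1 : ℤ) ≤ r := by exact_mod_cast hr1
    omega
  nlinarith

end

/-- periodic paths of length `d` with endpoint in the box -/
abbrev QT (d : ℕ) : Type :=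
  Σ v : ↥(Finset.Icc ((1 : ℤ), -(d : ℤ)) ((d : ℤ), (d : ℤ))), {F : ℤ → ℤ × ℤ // IsPer d v F}

instance (d : ℕ) (v : ↥(Finset.Icc ((1 : ℤ), -(d : ℤ)) ((d : ℤ), (d : ℤ)))) :
    Finite {F : ℤ → ℤ × ℤ // IsPer d v F} :=
  finite_per d v (by
    have := (Finset.mem_Icc.mp v.2).1
    exact this.1)

instance (n : ℕ) : Finite {ω : Fin (n + 1) → ℤ × ℤ // H981.IsBridge n ω} := by
  have h : Set.Finite (Set.pi Set.univ (fun _ : Fin (n + 1) =>
      (Set.Icc ((-n, -n) : ℤ × ℤ) (n, n)))) := Set.Finite.pi fun _ => Set.finite_Icc _ _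
  refine (h.subset ?_).to_subtype
  intro ω hω i _
  have hB := brN_of hω
  have key : ∀ j : ℕ, j ≤ n → |(ex ω j).1| ≤ j ∧ |(ex ω j).2| ≤ j := by
    intro j
    induction j with
    | zero => intro _; simp [hB.zero]
    | succ j ih =>
      intro hj
      have h1 := hB.step j (by omega)
      have ih := ih (by omega)
      have b1 := abs_nonneg ((ex ω (j + 1)).1 - (ex ω j).1)
      have b2 := abs_nonneg ((ex ω (j + 1)).2 - (ex ω j).2)
      have c1 : |(ex ω (j + 1)).1 - (ex ω j).1| ≤ 1 := by omega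
      have c2 : |(ex ω (j + 1)).2 - (ex ω j).2| ≤ 1 := by omega
      rw [abs_le] at c1 c2 ih
      rw [abs_le] at ih
      push_cast
      constructor <;> rw [abs_le] <;> omega
  have h1 := key i (by have := i.2; omega)
  rw [ex_of_le ω (by have := i.2; omega)] at h1
  rw [abs_le, abs_le] at h1
  have h2 := i.2
  simp only [Fin.eta] at h1
  refine ⟨⟨?_, ?_⟩, ⟨?_, ?_⟩⟩ <;> simp only <;> omega

theorem bridge_aux (n : ℕ) :
    Nat.card (Fin n × {ω : Fin (n + 1) → ℤ × ℤ // H981.IsBridge n ω}) ≤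
      Nat.card (Σ d : Fin (n + 1), QT d ×
        {ω : Fin (n - d + 1) → ℤ × ℤ // H981.IsBridge (n - d) ω}) := by
  refine (card_le_of_rel (fun a b => (a.1 : ℕ) < (b.1 : ℕ) ∧
    (∀ i : ℕ, i ≤ (b.1 : ℕ) → ex a.2.1 i = b.2.1.2.1 ((i : ℤ) - (a.1 : ℕ)) -
      b.2.1.2.1 (0 - ((a.1 : ℕ) : ℤ))) ∧
    (∀ i : ℕ, i ≤ n - b.1 → ex b.2.2.1 i = ex a.2.1 (b.1 + i) - ex a.2.1 b.1) ∧
    CutZ b.2.1.2.1 ((b.1 : ℕ) - (a.1 : ℕ)) ∧
    (∀ p : ℤ, 0 < p → p < ((b.1 : ℕ) : ℤ) - (a.1 : ℕ) → ¬ CutZ b.2.1.2.1 p)) ?_ ?_).2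
  · classical
    rintro ⟨c, ⟨ω, hω⟩⟩
    have hB := brN_of hω
    have hcn := c.2
    have hex : ∃ d, (c : ℕ) < d ∧ d ≤ n ∧ Cut n (ex ω) d :=
      ⟨n, c.2, le_rfl, fun i hi => hB.le i hi, fun i h1 h2 => by omega⟩
    obtain ⟨d, ⟨hcd, hdn, hcut⟩, hmin⟩ : ∃ d, ((c : ℕ) < d ∧ d ≤ n ∧ Cut n (ex ω) d) ∧
        ∀ m < d, ¬ ((c : ℕ) < m ∧ m ≤ n ∧ Cut n (ex ω) m) :=
      ⟨Nat.find hex, Nat.find_spec hex, fun m hm => Nat.find_min hex hm⟩
    have hd : 0 < d := by omega
    have hH := hB.head hdn hcut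
    have hT := hB.tail hdn hcut
    have hP := perx_per hd hH (((c : ℕ) : ℤ))
    have hv : ex ω d ∈ Finset.Icc ((1 : ℤ), -(d : ℤ)) ((d : ℤ), (d : ℤ)) := by
      have e1 := hP.per 0
      rw [zero_add, hP.zero, zero_add] at e1
      have e2 := hP.fst_le d
      have e3 := hP.snd_le d
      rw [e1, abs_of_nonneg (by positivity : (0 : ℤ) ≤ d), abs_le] at e2 e3
      have e4 := hH.pos d hd le_rfl
      rw [Finset.mem_Icc]
      exact ⟨⟨by omega, by omega⟩, ⟨by omega, by omega⟩⟩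
    refine ⟨⟨⟨d, by omega⟩, ⟨⟨ex ω d, hv⟩, ⟨_, hP⟩⟩, ⟨_, hT.to⟩⟩, hcd, ?_, ?_, ?_, ?_⟩
    · intro i hi
      simp only at hi ⊢
      have e1 : ((c : ℕ) : ℤ) + ((i : ℤ) - (c : ℕ)) = i := by ring
      have e2 : ((c : ℕ) : ℤ) + (0 - ((c : ℕ) : ℤ)) = ((0 : ℕ) : ℤ) := by simp
      rw [e1, e2, perx_nat hd hH hi, perx_nat hd hH (Nat.zero_le d), hB.zero]
      abel
    · intro i hi
      simp only at hi ⊢
      rw [ex_of_le _ hi]
    · simp only
      refine ⟨?_, ?_⟩
      · intro i hi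
        have e1 : ((c : ℕ) : ℤ) + ((d : ℤ) - (c : ℕ)) = d := by ring
        simp only [Prod.fst_sub]
        rw [e1, perx_nat hd hH le_rfl]
        have := perx_le hd hH (i := (c : ℕ) + i) (by omega)
        omega
      · intro i hi
        have e1 : ((c : ℕ) : ℤ) + ((d : ℤ) - (c : ℕ)) = d := by ring
        simp only [Prod.fst_sub]
        rw [e1, perx_nat hd hH le_rfl]
        have := perx_gt hd hH (i := (c : ℕ) + i) (by omega)
        omega
    · intro p hp0 hp1 hcp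
      simp only at hp1 hcp
      obtain ⟨m, hm⟩ : ∃ m : ℕ, (m : ℤ) = (c : ℕ) + p := ⟨((c : ℕ) + p).toNat,
        Int.toNat_of_nonneg (by omega)⟩
      refine hmin m (by omega) ⟨by omega, by omega, ?_, ?_⟩
      · intro i hi
        have h1 := hcp.1 ((i : ℤ) - (c : ℕ)) (by omega)
        simp only [Prod.fst_sub] at h1
        have e1 : ((c : ℕ) : ℤ) + ((i : ℤ) - (c : ℕ)) = i := by ring
        rw [e1, ← hm, perx_nat hd hH (i := i) (by omega), perx_nat hd hH (i := m) (by omega)] at h1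
        omega
      · intro i hi1 hi2
        rcases Nat.lt_or_ge d i with h | h
        · have h1 := hcut.2 i h hi2
          have h2 := hcp.2 ((d : ℤ) - (c : ℕ)) (by omega)
          simp only [Prod.fst_sub] at h2
          have e1 : ((c : ℕ) : ℤ) + ((d : ℤ) - (c : ℕ)) = d := by ring
          rw [e1, ← hm, perx_nat hd hH (i := d) le_rfl, perx_nat hd hH (i := m) (by omega)] at h2
          omega
        · have h1 := hcp.2 ((i : ℤ) - (c : ℕ)) (by omega)
          simp only [Prod.fst_sub] at h1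
          have e1 : ((c : ℕ) : ℤ) + ((i : ℤ) - (c : ℕ)) = i := by ring
          rw [e1, ← hm, perx_nat hd hH (i := i) (by omega), perx_nat hd hH (i := m) (by omega)] at h1
          omega
  · rintro ⟨c, ⟨ω, hω⟩⟩ ⟨c', ⟨ω', hω'⟩⟩ ⟨d, ⟨v, F⟩, Y⟩ ⟨h1, h2, h3, h4, h5⟩
      ⟨h1', h2', h3', h4', h5'⟩
    simp only at h1 h2 h3 h4 h5 h1' h2' h3' h4' h5'
    have hcc : c = c' := by
      apply Fin.ext
      rcases lt_trichotomy (c : ℕ) (c' : ℕ) with h | h | h
      · exact absurd h4' (h5 _ (by omega) (by omega))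
      · exact h
      · exact absurd h4 (h5' _ (by omega) (by omega))
    subst hcc
    have hd := d.2
    have hww : ∀ i, i ≤ n → ex ω i = ex ω' i := by
      intro i hi
      rcases Nat.lt_or_ge (d : ℕ) i with h | h
      · have a1 := h3 (i - d) (by omega)
        have a2 := h3' (i - d) (by omega)
        have e : (d : ℕ) + (i - d) = i := by omega
        rw [e] at a1 a2
        have a3 : ex ω d = ex ω' d := by
          rw [h2 d le_rfl, h2' d le_rfl]
        rw [a1, a3] at a2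
        exact sub_left_injective a2
      · rw [h2 i h, h2' i h]
    have hωω : ω = ω' := by
      funext i
      have := hww i (by have := i.2; omega)
      rw [ex_of_le ω (by have := i.2; omega), ex_of_le ω' (by have := i.2; omega)] at this
      exact this
    subst hωω
    rfl

/-- **marked bridges**: `n b_n ≤ ∑_d q_d b_{n-d}` -/
theorem bridge_ineq (n : ℕ) :
    n * H981.B n ≤ ∑ d : Fin (n + 1), (∑ v : ↥(Finset.Icc ((1 : ℤ), -((d : ℕ) : ℤ))
      (((d : ℕ) : ℤ), ((d : ℕ) : ℤ))), Nat.card {F : ℤ → ℤ × ℤ // IsPer d v F}) *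
        H981.B (n - d) := by
  have h := bridge_aux n
  rw [Nat.card_prod, Nat.card_sigma] at h
  simpa [Nat.card_prod, Nat.card_sigma, H981.B] using h

end Pool.Agent.H98P
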