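import Pool.Agent.H976R3.HPL.C1
import Pool.Agent.H500R3.Saw.Trans

/-!
The bridge series of the square lattice diverges at `1/μ`.
-/

set_option autoImplicit false

namespace Pool.Agent.H98P

open H500S Filter

theorem cc_eq (n : ℕ) : @H982.cc sL n = H981.cc n := by
  unfold H982.cc H981.cc
  rw [← tw_inj.tsum_eq]
  · apply tsum_congr
    intro w
    rw [ind_eq, saw_tw, tw_length]
  · intro v hv
    rw [Function.mem_support] at hv
    by_contra hcon
    apply hv
    apply H982.ind_not
    rintro ⟨h1, -⟩
    exact hcon (ok_range h1.2)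

theorem mu_eq : @H982.mu sL = H981.mu := by
  have h1 := @H982.tendsto_root sL
  have h2 := H981.tendsto_root
  refine tendsto_nhds_unique h1 (h2.congr fun n => ?_)
  have : H981.cr' n = @H982.cr' sL n := by
    unfold H981.cr' H982.cr'
    rw [cc_eq]
  rw [this]

theorem bridge_div : ¬ Summable (fun n : ℕ => (H981.B n : ℝ) / H981.mu ^ n) := by
  have h := @Pool.Agent.H976R3.HPL.bridge_div sL
  have e : (fun n : ℕ => @H982.br' sL n / @H982.mu sL ^ n) =
      fun n : ℕ => (H981.B n : ℝ) / H981.mu ^ n := by
    funext n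
    rw [mu_eq, ← H981.br'_eq]
    unfold H981.br' H982.br'
    rw [bn_eq]
  rwa [e] at h

end Pool.Agent.H98P
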