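import Pool.Agent.H98P.Sum
import Pool.Agent.H98P.Div
import Pool.Agent.TH546.PC.Tail

/-!
The series of `√(R P(R))` diverges.
-/

set_option autoImplicit false

namespace Pool.Agent.H98P

open Finset

theorem qq_zero : qq 0 = 0 := by
  unfold qq
  have : Icc ((1 : ℤ), -((0 : ℕ) : ℤ)) (((0 : ℕ) : ℤ), ((0 : ℕ) : ℤ)) = ∅ := by
    apply Finset.Icc_eq_empty
    intro h
    have := h.1
    simp at this
  rw [this, Finset.sum_empty]

theorem core (hsum : ∀ R, Summable fun N => lw N R) :
    ¬ Summable (fun R : ℕ => Real.sqrt (R * PR R)) := by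
  intro hs
  have hmu := H981.mu_pos
  apply bridge_div
  refine ren_summable (r := fun j => qq j / H981.mu ^ j) (fun n => by positivity)
    (fun n => div_nonneg (qq_nonneg n) (pow_pos hmu n).le) (by simp [qq_zero]) bridge_real ?_
  apply summable_of_sum_range_le (c := 8 * H981.mu * ∑' R : ℕ, Real.sqrt (R * PR R))
    (fun n => div_nonneg (div_nonneg (qq_nonneg n) (pow_pos hmu n).le) (Nat.cast_nonneg n))
  intro N
  have h1 : ∑ j ∈ range N, qq j / H981.mu ^ j / j ≤ ∑ j ∈ Icc 1 N, qq j / j / H981.mu ^ j := by
    calc ∑ j ∈ range N, qq j / H981.mu ^ j / j ≤ ∑ j ∈ range (N + 1), qq j / H981.mu ^ j / j := by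
          apply Finset.sum_le_sum_of_subset_of_nonneg
          · apply Finset.range_subset_range.mpr; omega
          · intro i _ _
            exact div_nonneg (div_nonneg (qq_nonneg i) (pow_pos hmu i).le) (Nat.cast_nonneg i)
      _ = ∑ j ∈ Icc 1 N, qq j / H981.mu ^ j / j := by
          rw [Finset.sum_range_succ']
          simp only [Nat.cast_zero, div_zero, add_zero]
          rw [Finset.range_eq_Ico, Finset.sum_Ico_add' (fun j => qq j / H981.mu ^ j / (j : ℝ)) 0 N 1]
          rfl
      _ = _ := by
          apply Finset.sum_congr rfl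
          intro j _
          rw [div_right_comm]
  refine (h1.trans (qq_sum_le hsum N)).trans ?_
  apply mul_le_mul_of_nonneg_left _ (by positivity)
  exact hs.sum_le_tsum _ fun R _ => Real.sqrt_nonneg _

end Pool.Agent.H98P
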