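import Pool.Agent.H98P.Per

/-!
Joining two periodic paths at their last contact: a self-avoiding polygon that meets its translate
by the period in exactly one edge.
-/

set_option autoImplicit false

namespace Pool.Agent.H98P

/-- closed self-avoiding loops rooted at the origin -/
def IsLoop (m : ℕ) (f : ZMod m → ℤ × ℤ) : Prop :=
  f 0 = 0 ∧ Function.Injective f ∧
    ∀ i : ZMod m, |(f (i + 1)).1 - (f i).1| + |(f (i + 1)).2 - (f i).2| = 1

/-- loops that meet their translate by `v` in exactly one vertical edge -/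
structure Tan (N : ℕ) (v : ℤ × ℤ) (a : ℕ) (f : ZMod N → ℤ × ℤ) : Prop where
  loop : IsLoop N f
  fa : f a = v
  fm : f (-1) = (0, 1)
  fa1 : f (a + 1) = v + (0, 1)
  star : ∀ i j, f i = f j + v → f i = v ∨ f i = v + (0, 1)

theorem val_succ {N : ℕ} [NeZero N] (i : ZMod N) :
    (i.val + 1 < N ∧ (i + 1).val = i.val + 1) ∨ (i.val + 1 = N ∧ (i + 1).val = 0) := by
  have h1 : i + 1 = ((i.val + 1 : ℕ) : ZMod N) := by
    rw [Nat.cast_add, ZMod.natCast_zmod_val, Nat.cast_one]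
  have h2 : (i + 1).val = (i.val + 1) % N := by rw [h1, ZMod.val_natCast]
  have h3 := ZMod.val_lt i
  rcases Nat.lt_or_ge (i.val + 1) N with h | h
  · left
    exact ⟨h, by rw [h2, Nat.mod_eq_of_lt h]⟩
  · right
    have : i.val + 1 = N := by omega
    exact ⟨this, by rw [h2, this, Nat.mod_self]⟩

/-- the glued loop -/
def glue (n₁ n₂ : ℕ) (F G : ℤ → ℤ × ℤ) (k l : ℤ) : ZMod (n₁ + n₂ + 2) → ℤ × ℤ := fun i =>
  if i.val ≤ n₁ then F (k + i.val) - F k
  else G (l + ((n₁ + n₂ + 1 : ℕ) - (i.val : ℤ))) - G l + (0, 1)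

section

variable {n₁ n₂ : ℕ} {v : ℤ × ℤ} {F G : ℤ → ℤ × ℤ} {k l : ℤ}

theorem glue_lo {a : ℕ} (ha : a ≤ n₁) : glue n₁ n₂ F G k l (a : ZMod (n₁ + n₂ + 2)) =
    F (k + a) - F k := by
  have h1 : (a : ZMod (n₁ + n₂ + 2)).val = a := ZMod.val_natCast_of_lt (by omega)
  unfold glue
  rw [h1, if_pos ha]

theorem glue_hi {m : ℕ} (hm : m ≤ n₂) :
    glue n₁ n₂ F G k l ((n₁ + n₂ + 1 - m : ℕ) : ZMod (n₁ + n₂ + 2)) = G (l + m) - G l + (0, 1) := by
  have h1 : ((n₁ + n₂ + 1 - m : ℕ) : ZMod (n₁ + n₂ + 2)).val = n₁ + n₂ + 1 - m :=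
    ZMod.val_natCast_of_lt (by omega)
  unfold glue
  rw [h1, if_neg (by omega)]
  congr 3
  have : ((n₁ + n₂ + 1 - m : ℕ) : ℤ) = (n₁ + n₂ + 1 : ℕ) - (m : ℤ) := by omega
  rw [this]; ring

theorem glue_cases (i : ZMod (n₁ + n₂ + 2)) :
    (∃ a : ℕ, a ≤ n₁ ∧ i = (a : ZMod (n₁ + n₂ + 2))) ∨
      (∃ m : ℕ, m ≤ n₂ ∧ i = ((n₁ + n₂ + 1 - m : ℕ) : ZMod (n₁ + n₂ + 2))) := by
  have h1 := ZMod.val_lt i
  rcases Nat.lt_or_ge n₁ i.val with h | h
  · right
    refine ⟨n₁ + n₂ + 1 - i.val, by omega, ?_⟩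
    have : n₁ + n₂ + 1 - (n₁ + n₂ + 1 - i.val) = i.val := by omega
    rw [this, ZMod.natCast_zmod_val]
  · left
    exact ⟨i.val, h, by rw [ZMod.natCast_zmod_val]⟩

theorem glue_tan (hF : IsPer n₁ v F) (hG : IsPer n₂ v G) {t s : ℤ} (h : F k = G l + (t, s))
    (hmax : ∀ i j s' : ℤ, s < s' → F i ≠ G j + (t, s')) :
    Tan (n₁ + n₂ + 2) v n₁ (glue n₁ n₂ F G k l) := by
  have cross : ∀ i j : ℤ, F i - F k ≠ G j - G l + (0, 1) := by
    intro i j hij
    refine hmax i j (s + 1) (by omega) ?_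
    have h1 : F i = G j + (F k - G l) + (0, 1) := by
      have : F i = (F i - F k) + F k := by abel
      rw [this, hij]; abel
    rw [h1, h]
    have : G l + (t, s) - G l = (t, s) := by abel
    rw [this, add_assoc]
    congr 1
    ext <;> simp
  have hlast : ((n₁ + n₂ + 1 : ℕ) : ZMod (n₁ + n₂ + 2)) = -1 := by
    have h1 : ((n₁ + n₂ + 2 : ℕ) : ZMod (n₁ + n₂ + 2)) = 0 := ZMod.natCast_self _
    have h2 : ((n₁ + n₂ + 2 : ℕ) : ZMod (n₁ + n₂ + 2)) =
        ((n₁ + n₂ + 1 : ℕ) : ZMod (n₁ + n₂ + 2)) + 1 := by push_cast; ring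
    rw [h2] at h1
    exact eq_neg_of_add_eq_zero_left h1
  have g0 : glue n₁ n₂ F G k l 0 = 0 := by
    have := glue_lo (n₁ := n₁) (n₂ := n₂) (F := F) (G := G) (k := k) (l := l) (Nat.zero_le n₁)
    simpa using this
  have ga : glue n₁ n₂ F G k l (n₁ : ZMod (n₁ + n₂ + 2)) = v := by
    rw [glue_lo le_rfl, hF.per]; abel
  have gm : glue n₁ n₂ F G k l (-1) = (0, 1) := by
    rw [← hlast]
    have := glue_hi (n₁ := n₁) (n₂ := n₂) (F := F) (G := G) (k := k) (l := l) (Nat.zero_le n₂)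
    simpa using this
  have ga1 : glue n₁ n₂ F G k l ((n₁ : ZMod (n₁ + n₂ + 2)) + 1) = v + (0, 1) := by
    have := glue_hi (n₁ := n₁) (n₂ := n₂) (F := F) (G := G) (k := k) (l := l) (le_refl n₂)
    have e : n₁ + n₂ + 1 - n₂ = n₁ + 1 := by omega
    rw [e, hG.per] at this
    rw [Nat.cast_add, Nat.cast_one] at this
    rw [this]; abel
  refine ⟨⟨g0, ?_, ?_⟩, ga, gm, ga1, ?_⟩
  · intro i j hij
    rcases glue_cases i with ⟨a, ha, rfl⟩ | ⟨a, ha, rfl⟩ <;>
      rcases glue_cases j with ⟨b, hb, rfl⟩ | ⟨b, hb, rfl⟩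
    · rw [glue_lo ha, glue_lo hb] at hij
      have := hF.inj (sub_left_injective hij)
      have : a = b := by omega
      rw [this]
    · rw [glue_lo ha, glue_hi hb] at hij
      exact absurd hij (cross _ _)
    · rw [glue_lo hb, glue_hi ha] at hij
      exact absurd hij.symm (cross _ _)
    · rw [glue_hi ha, glue_hi hb] at hij
      have := hG.inj (sub_left_injective (add_left_injective _ hij))
      have : a = b := by omega
      rw [this]
  · intro i
    have hi := val_succ i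
    have hlt := ZMod.val_lt i
    obtain ⟨a, ha⟩ : ∃ a, a = i.val := ⟨_, rfl⟩
    have hi2 : i = (a : ZMod (n₁ + n₂ + 2)) := by rw [ha, ZMod.natCast_zmod_val]
    have hi3 : i + 1 = ((a + 1 : ℕ) : ZMod (n₁ + n₂ + 2)) := by rw [hi2]; push_cast; rfl
    rw [← ha] at hi hlt
    rcases Nat.lt_trichotomy a n₁ with h1 | h1 | h1
    · rw [hi3, hi2, glue_lo h1.le, glue_lo (by omega : a + 1 ≤ n₁)]
      have := hF.step (k + a)
      have e : k + ((a + 1 : ℕ) : ℤ) = k + a + 1 := by push_cast; ring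
      rw [e]
      simpa using this
    · subst h1
      rw [hi2, ga, ga1]
      simp
    · rcases Nat.lt_or_ge (a + 1) (n₁ + n₂ + 2) with h2 | h2
      · obtain ⟨m, hm⟩ : ∃ m, m = n₁ + n₂ + 1 - (a + 1) := ⟨_, rfl⟩
        have e1 : a + 1 = n₁ + n₂ + 1 - m := by omega
        have e2 : a = n₁ + n₂ + 1 - (m + 1) := by omega
        rw [hi3, hi2, e1]
        conv in (a : ZMod (n₁ + n₂ + 2)) => rw [e2]
        conv in (a : ZMod (n₁ + n₂ + 2)) => rw [e2]
        rw [glue_hi (by omega), glue_hi (by omega)]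
        have := hG.step (l + m)
        have e : l + ((m + 1 : ℕ) : ℤ) = l + m + 1 := by push_cast; ring
        rw [e]
        have h7 : |(G (l + (m : ℤ))).1 - (G (l + m + 1)).1| +
            |(G (l + (m : ℤ))).2 - (G (l + m + 1)).2| = 1 := by
          rw [abs_sub_comm (G (l + (m : ℤ))).1, abs_sub_comm (G (l + (m : ℤ))).2]
          exact this
        simpa using h7
      · have e : a = n₁ + n₂ + 1 := by omega
        have hi4 : i = -1 := by rw [hi2, e, hlast]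
        have hi5 : i + 1 = 0 := by rw [hi4]; ring
        rw [hi5, hi4, g0, gm]
        simp
  · intro i j hij
    rcases glue_cases i with ⟨a, ha, rfl⟩ | ⟨a, ha, rfl⟩ <;>
      rcases glue_cases j with ⟨b, hb, rfl⟩ | ⟨b, hb, rfl⟩
    · rw [glue_lo ha, glue_lo hb] at hij
      have h1 : F (k + a) = F (k + b + n₁) := by
        rw [hF.per]
        have : F (k + a) = (F (k + a) - F k) + F k := by abel
        rw [this, hij]; abel
      have h2 := hF.inj h1
      have h3 : a = n₁ := by omega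
      left
      rw [h3, ga]
    · rw [glue_lo ha, glue_hi hb] at hij
      refine absurd ?_ (cross (k + a) (l + b + n₂))
      rw [hij, hG.per]; abel
    · rw [glue_lo hb, glue_hi ha] at hij
      refine absurd ?_ (cross (k + b + n₁) (l + a))
      rw [hij, hF.per]; abel
    · rw [glue_hi ha, glue_hi hb] at hij
      have h1 : G (l + a) = G (l + b + n₂) := by
        rw [hG.per]
        have : G (l + a) = (G (l + a) - G l + (0, 1)) + G l - (0, 1) := by abel
        rw [this, hij]; abel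
      have h2 := hG.inj h1
      have h3 : a = n₂ := by omega
      right
      rw [glue_hi ha, h3, hG.per]; abel

end

/-- the periodic paths agree when they agree on a period -/
theorem IsPer.window {n : ℕ} {v : ℤ × ℤ} {F F' : ℤ → ℤ × ℤ} (hF : IsPer n v F)
    (hF' : IsPer n v F') (hn : 0 < n) {k k' : ℤ}
    (h : ∀ a : ℕ, a ≤ n → F (k + a) - F k = F' (k' + a) - F' k') (x : ℤ) :
    F (k + x) - F k = F' (k' + x) - F' k' := by
  have hn' : (0 : ℤ) < n := by exact_mod_cast hn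
  obtain ⟨q, hq⟩ : ∃ q, q = x / (n : ℤ) := ⟨_, rfl⟩
  obtain ⟨r, hr⟩ : ∃ r : ℕ, (r : ℤ) = x % (n : ℤ) :=
    ⟨(x % (n : ℤ)).toNat, Int.toNat_of_nonneg (Int.emod_nonneg _ hn'.ne')⟩
  have hr1 : (r : ℤ) < n := by rw [hr]; exact Int.emod_lt_of_pos _ hn'
  have hx : x = r + q * n := by
    rw [hq, hr]; have := Int.emod_add_mul_ediv x n; linarith
  have e1 : k + x = (k + r) + q * n := by rw [hx]; ring
  have e2 : k' + x = (k' + r) + q * n := by rw [hx]; ring
  rw [e1, e2, hF.per_mul, hF'.per_mul]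
  have := h r (by omega)
  have e3 : F (k + r) + q • v - F k = (F (k + r) - F k) + q • v := by abel
  rw [e3, this]; abel

theorem IsPer.eq_of_shift {n : ℕ} {v : ℤ × ℤ} {F F' : ℤ → ℤ × ℤ} (hF : IsPer n v F)
    (hF' : IsPer n v F') {k : ℤ} (h : ∀ x : ℤ, F (k + x) - F k = F' (k + x) - F' k) : F = F' := by
  have h0 := h (-k)
  rw [add_neg_cancel, hF.zero, hF'.zero, zero_sub, zero_sub] at h0
  have h1 : F k = F' k := neg_injective h0
  funext x
  have h2 := h (x - k)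
  rw [add_sub_cancel, h1] at h2
  exact sub_left_injective h2

/-- counting by a relation -/
theorem card_le_of_rel {A B : Type*} [Finite B] (r : A → B → Prop) (h1 : ∀ a, ∃ b, r a b)
    (h2 : ∀ a a' b, r a b → r a' b → a = a') : Finite A ∧ Nat.card A ≤ Nat.card B := by
  choose f hf using h1
  have hinj : Function.Injective f := fun a a' h => h2 a a' (f a) (hf a) (by rw [h]; exact hf a')
  exact ⟨Finite.of_injective f hinj, Nat.card_le_card_of_injective f hinj⟩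

theorem loop_nat_le {N : ℕ} {f : ZMod N → ℤ × ℤ} (h : IsLoop N f) (a : ℕ) :
    |(f a).1| ≤ a ∧ |(f a).2| ≤ a := by
  induction a with
  | zero => simp [h.1]
  | succ a ih =>
    have h1 := h.2.2 (a : ZMod N)
    have e : ((a + 1 : ℕ) : ZMod N) = (a : ZMod N) + 1 := by push_cast; rfl
    rw [e]
    have b1 := abs_nonneg ((f ((a : ZMod N) + 1)).1 - (f a).1)
    have b2 := abs_nonneg ((f ((a : ZMod N) + 1)).2 - (f a).2)
    have c1 : |(f ((a : ZMod N) + 1)).1 - (f a).1| ≤ 1 := by omega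
    have c2 : |(f ((a : ZMod N) + 1)).2 - (f a).2| ≤ 1 := by omega
    rw [abs_le] at c1 c2 ih
    rw [abs_le] at ih
    push_cast
    constructor <;> rw [abs_le] <;> omega

instance finite_loop (N : ℕ) [NeZero N] : Finite {f : ZMod N → ℤ × ℤ // IsLoop N f} := by
  have h : Set.Finite (Set.pi Set.univ (fun _ : ZMod N =>
      (Set.Icc ((-N, -N) : ℤ × ℤ) (N, N)))) := Set.Finite.pi fun _ => Set.finite_Icc _ _
  refine (h.subset ?_).to_subtype
  intro f hf i _
  have h1 := loop_nat_le hf i.val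
  rw [ZMod.natCast_zmod_val] at h1
  have h2 := ZMod.val_lt i
  rw [abs_le, abs_le] at h1
  refine ⟨⟨?_, ?_⟩, ⟨?_, ?_⟩⟩ <;> simp only <;> omega

instance finite_tan (N : ℕ) [NeZero N] (v : ℤ × ℤ) (a : ℕ) :
    Finite {f : ZMod N → ℤ × ℤ // Tan N v a f} :=
  Finite.of_injective (fun f => (⟨f.1, f.2.loop⟩ : {f : ZMod N → ℤ × ℤ // IsLoop N f}))
    fun f g h => Subtype.ext (by simpa using h)

theorem main_aux (n₁ n₂ : ℕ) (v : ℤ × ℤ) (hv : 1 ≤ v.1) :
    Finite (Fin v.1.toNat × {F // IsPer n₁ v F} × {G // IsPer n₂ v G}) ∧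
    Nat.card (Fin v.1.toNat × {F // IsPer n₁ v F} × {G // IsPer n₂ v G}) ≤
      Nat.card (Fin n₁ × Fin n₂ × {f : ZMod (n₁ + n₂ + 2) → ℤ × ℤ // Tan (n₁ + n₂ + 2) v n₁ f}) := by
  have hT : ((v.1.toNat : ℕ) : ℤ) = v.1 := Int.toNat_of_nonneg (by omega)
  apply card_le_of_rel (fun a b => ∃ l s c : ℤ, l = (b.2.1 : ℕ) + c * n₂ ∧
    a.2.1.1 ((b.1 : ℕ) : ℤ) = a.2.2.1 l + (((a.1 : ℕ) : ℤ), s) ∧
    (∀ i : ℕ, i ≤ n₁ → b.2.2.1 i = a.2.1.1 ((b.1 : ℕ) + i) - a.2.1.1 ((b.1 : ℕ) : ℤ)) ∧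
    (∀ m : ℕ, m ≤ n₂ → b.2.2.1 ((n₁ + n₂ + 1 - m : ℕ) : ZMod (n₁ + n₂ + 2)) =
      a.2.2.1 (l + m) - a.2.2.1 l + (0, 1)))
  · rintro ⟨t, ⟨F, hF⟩, ⟨G, hG⟩⟩
    have hn2 := hG.pos hv
    have hn2' : (0 : ℤ) < n₂ := by exact_mod_cast hn2
    have ht := t.2
    obtain ⟨k, l, s, hk0, hk1, hkl, hmax⟩ := exists_contact hF hG hv (t := ((t : ℕ) : ℤ))
      (by positivity) (by omega)
    have hr0 : 0 ≤ l % (n₂ : ℤ) := Int.emod_nonneg _ hn2'.ne'
    have hr1 : l % (n₂ : ℤ) < n₂ := Int.emod_lt_of_pos _ hn2'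
    refine ⟨(⟨k.toNat, by omega⟩, ⟨(l % (n₂ : ℤ)).toNat, by omega⟩,
      ⟨glue n₁ n₂ F G k l, glue_tan hF hG hkl hmax⟩), l, s, l / n₂, ?_, ?_, ?_, ?_⟩
    · simp only
      rw [Int.toNat_of_nonneg hr0]
      have := Int.emod_add_mul_ediv l n₂; linarith
    · simp only
      rw [Int.toNat_of_nonneg hk0]
      exact hkl
    · intro i hi
      simp only
      rw [Int.toNat_of_nonneg hk0, glue_lo hi]
    · intro m hm
      simp only
      rw [glue_hi hm]
  · rintro ⟨t, ⟨F, hF⟩, ⟨G, hG⟩⟩ ⟨t', ⟨F', hF'⟩, ⟨G', hG'⟩⟩ ⟨k, lb, ⟨f, hf⟩⟩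
      ⟨l, s, c, hl, h1, h2, h3⟩ ⟨l', s', c', hl', h1', h2', h3'⟩
    simp only at hl h1 h2 h3 hl' h1' h2' h3'
    have hn1 := hF.pos hv
    have hn2 := hG.pos hv
    have hFF : F = F' := by
      apply hF.eq_of_shift hF' (k := ((k : ℕ) : ℤ))
      apply hF.window hF' hn1
      intro a ha
      rw [← h2 a ha, ← h2' a ha]
    have hGG0 : ∀ x : ℤ, G (l + x) - G l = G' (l' + x) - G' l' := by
      apply hG.window hG' hn2
      intro a ha
      exact add_left_injective _ ((h3 a ha).symm.trans (h3' a ha))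
    have e : l' = l + (c' - c) * n₂ := by rw [hl, hl']; ring
    have hGG : G = G' := by
      apply hG.eq_of_shift hG' (k := l)
      intro x
      rw [hGG0 x, e]
      have e2 : l + (c' - c) * n₂ + x = (l + x) + (c' - c) * n₂ := by ring
      rw [e2, hG'.per_mul, hG'.per_mul]
      abel
    subst hFF
    subst hGG
    have ht := t.2
    have ht' := t'.2
    have h5 : G l + (((t : ℕ) : ℤ), s) = G l' + (((t' : ℕ) : ℤ), s') := h1.symm.trans h1'
    rw [e, hG.per_mul] at h5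
    have h6 := congrArg Prod.fst h5
    simp only [Prod.fst_add, Prod.smul_fst, smul_eq_mul] at h6
    have h7 : ((t : ℕ) : ℤ) = (c' - c) * v.1 + ((t' : ℕ) : ℤ) := by linarith
    have h8 : c' - c = 0 := by
      by_contra hne
      rcases lt_or_gt_of_ne hne with h | h
      · nlinarith
      · nlinarith
    have h9 : t = t' := by
      apply Fin.ext
      rw [h8, zero_mul, zero_add] at h7
      exact_mod_cast h7
    rw [h9]

theorem finite_per (n : ℕ) (v : ℤ × ℤ) (hv : 1 ≤ v.1) : Finite {F // IsPer n v F} := by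
  have h := (main_aux n n v hv).1
  exact Finite.of_injective
    (fun F : {F // IsPer n v F} => ((⟨0, by omega⟩, F, F) :
      Fin v.1.toNat × {F // IsPer n v F} × {G // IsPer n v G}))
    fun F G hFG => congrArg (fun x => x.2.1) hFG

/-- **gluing inequality** -/
theorem glue_ineq (n₁ n₂ : ℕ) (v : ℤ × ℤ) (hv : 1 ≤ v.1) :
    v.1.toNat * (Nat.card {F // IsPer n₁ v F} * Nat.card {F // IsPer n₂ v F}) ≤
      n₁ * (n₂ * Nat.card {f : ZMod (n₁ + n₂ + 2) → ℤ × ℤ // Tan (n₁ + n₂ + 2) v n₁ f}) := by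
  have h := (main_aux n₁ n₂ v hv).2
  simpa [Nat.card_prod] using h

end Pool.Agent.H98P
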