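import Pool.Agent.H98P.Core
import Pool.Agent.Y981.L2X.PolyW
import Pool.Agent.Y981.L2X.High

/-!
The moments of the width and the correlation length.
-/

set_option autoImplicit false

namespace Pool.Agent.H98P

open Finset Filter Topology
open Pool.Agent.W870.Pg (Fp Fp_pos)
open Pool.Agent.Y981.L2 (pw mass mass_pos mass_mono pw_anti pw_nat ln_eq wn)

theorem lw_odd {N : ℕ} (h : ¬ Even N) (R : ℕ) : lw N R = 0 := by
  have : IsEmpty (LW N R) := ⟨fun f => h (loop_even f.2.1)⟩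
  unfold lw
  rw [Nat.card_of_isEmpty]
  simp

theorem Fp_nonneg (n : ℕ) : 0 ≤ Fp n := by
  have hmu := H981.mu_pos
  unfold Fp H981.PP
  positivity

theorem lw_even_le (n R : ℕ) : lw (2 * n) R ≤ Fp n := by
  have hmu := H981.mu_pos
  rcases Nat.eq_zero_or_pos n with h | h
  · subst h
    unfold lw
    simp only [mul_zero, Nat.cast_zero, div_zero, zero_div]
    exact Fp_nonneg 0
  · have : NeZero (2 * n) := ⟨by omega⟩
    unfold lw Fp H981.PP
    apply div_le_div_of_nonneg_right _ (pow_pos hmu _).le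
    push_cast
    have e : (2 : ℝ) * (2 * n) = 4 * n := by ring
    rw [e]
    apply div_le_div_of_nonneg_right _ (by positivity)
    have h1 : Nat.card (LW (2 * n) R) ≤
        Nat.card {f : ZMod (2 * n) → ℤ × ℤ // H981.IsLoop (2 * n) f} := by
      have : Finite {f : ZMod (2 * n) → ℤ × ℤ // H981.IsLoop (2 * n) f} := finite_loop (2 * n)
      exact Nat.card_le_card_of_injective
        (fun f => (⟨f.1, f.2.1⟩ : {f : ZMod (2 * n) → ℤ × ℤ // H981.IsLoop (2 * n) f}))
        fun f g h => Subtype.ext (by have := congrArg Subtype.val h; exact this)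
    exact_mod_cast h1

theorem Fp_summable : Summable Fp := by
  obtain ⟨K, hK, h⟩ := Pool.Agent.TH546.PC.tail
  apply summable_of_sum_range_le (c := Fp 0 + Fp 1 + K / Real.sqrt (2 : ℕ)) Fp_nonneg
  intro N
  have h1 := h 2 N le_rfl
  have h2 : ∑ n ∈ range N, Fp n ≤ ∑ n ∈ insert 0 (insert 1 (Icc 2 N)), Fp n := by
    apply Finset.sum_le_sum_of_subset_of_nonneg
    · intro n hn
      rw [Finset.mem_range] at hn
      simp only [Finset.mem_insert, Finset.mem_Icc]
      omega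
    · intro n _ _; exact Fp_nonneg n
  rw [Finset.sum_insert (by simp), Finset.sum_insert (by simp)] at h2
  linarith

theorem two_mul_inj : Function.Injective (fun n : ℕ => 2 * n) := fun a b h => by
  simp only at h; omega

theorem lw_supp (R : ℕ) : ∀ N ∉ Set.range (fun n : ℕ => 2 * n), lw N R = 0 := by
  intro N hN
  apply lw_odd
  rintro ⟨k, hk⟩
  exact hN ⟨k, by simp only; omega⟩

theorem lw_even_summable (R : ℕ) : Summable fun n : ℕ => lw (2 * n) R :=
  Summable.of_nonneg_of_le (fun n => lw_nonneg _ _) (fun n => lw_even_le n R) Fp_summable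

theorem lw_summable (R : ℕ) : Summable fun N => lw N R :=
  (two_mul_inj.summable_iff (lw_supp R)).1 (lw_even_summable R)

theorem PR_eq (R : ℕ) : PR R = ∑' n : ℕ, lw (2 * n) R := by
  unfold PR
  symm
  apply two_mul_inj.tsum_eq (f := fun N => lw N R)
  intro N hN
  by_contra h
  exact hN (lw_supp R N h)

theorem core' : ¬ Summable (fun R : ℕ => Real.sqrt (R * PR R)) := core lw_summable

theorem lw_eq {n R : ℕ} (hn : 2 ≤ n) (hR : 1 ≤ R) : lw (2 * n) R = Fp n * pw n R := by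
  have hmu := H981.mu_pos
  have h1 := pw_nat (show 1 ≤ n by omega) hR
  have h2 := ln_eq (show 1 ≤ n by omega)
  have hP : 0 < H981.PP n := by
    have := Fp_pos hn
    unfold Fp at this
    exact (div_pos_iff_of_pos_right (pow_pos hmu _)).1 this
  have hn0 : (0 : ℝ) < n := by exact_mod_cast (by omega : 0 < n)
  rw [h1, h2]
  have h3 : (Nat.card (LW (2 * n) R) : ℝ) = (wn n R : ℝ) := by
    unfold wn
    rw [← Nat.card_coe_set_eq]
    rfl
  unfold lw Fp
  rw [h3]
  push_cast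
  field_simp
  ring

theorem lw_big {n R : ℕ} (hn : 1 ≤ n) (hR : 2 * n < R) : lw (2 * n) R = 0 := by
  have : IsEmpty (LW (2 * n) R) := ⟨fun f => by
    obtain ⟨i, j, hij⟩ := f.2.2
    have := Pool.Agent.Y981.L2.diff_le hn f.2.1 i j
    omega⟩
  unfold lw
  rw [Nat.card_of_isEmpty]
  simp

theorem pw_nonneg (n : ℕ) (r : ℝ) : 0 ≤ pw n r := by
  unfold pw; positivity

theorem pw_le_one {n : ℕ} (hn : 1 ≤ n) (r : ℝ) : pw n r ≤ 1 := by
  unfold pw
  apply div_le_one_of_le₀ _ (Nat.cast_nonneg _)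
  have h1 : {f : ZMod (2 * n) → ℤ × ℤ | H981.IsLoop (2 * n) f ∧
      r ≤ Pool.Agent.Y981.L2.width (2 * n) f}.ncard ≤
      {f : ZMod (2 * n) → ℤ × ℤ | H981.IsLoop (2 * n) f}.ncard := by
    apply Set.ncard_le_ncard
    · intro f hf; exact hf.1
    · exact Pool.Agent.Y981.L2.loops_finite hn
  exact_mod_cast h1

theorem pw_big {n R : ℕ} (hn : 2 ≤ n) (hR : 2 * n < R) : pw n R = 0 := by
  have h1 := lw_big (show 1 ≤ n by omega) hR
  rw [lw_eq hn (by omega)] at h1
  rcases mul_eq_zero.1 h1 with h | h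
  · exact absurd h (Fp_pos hn).ne'
  · exact h

/-- the weight -/
noncomputable def w (R : ℕ) : ℝ := R * (R + 1) * Real.log (R + 1) ^ 2

theorem w_nonneg (R : ℕ) : 0 ≤ w R := by unfold w; positivity

theorem w_mono {R R' : ℕ} (h : R ≤ R') : w R ≤ w R' := by
  unfold w
  have h1 : (R : ℝ) ≤ R' := by exact_mod_cast h
  have h2 : Real.log ((R : ℝ) + 1) ≤ Real.log (R' + 1) := Real.log_le_log (by positivity) (by linarith)
  have h3 : 0 ≤ Real.log ((R : ℝ) + 1) := Real.log_nonneg (by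
    have : (0 : ℝ) ≤ R := Nat.cast_nonneg R
    linarith)
  gcongr

/-- the inverse mass, i.e. the correlation length at distance `1 / (2 n)` -/
noncomputable def X (n : ℕ) : ℝ := 1 / mass (1 / (2 * (n : ℝ)))

theorem X_pos {n : ℕ} (hn : 1 ≤ n) : 0 < X n := by
  have hn0 : (0 : ℝ) < n := by exact_mod_cast (by omega : 0 < n)
  have := mass_pos (show (0 : ℝ) < 1 / (2 * (n : ℝ)) by positivity)
  unfold X; positivity

theorem one_le_X {n : ℕ} (hn : 1 ≤ n) : 1 ≤ mass 1 * X n := by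
  have hn0 : (0 : ℝ) < n := by exact_mod_cast (by omega : 0 < n)
  have hn1 : (1 : ℝ) ≤ n := by exact_mod_cast hn
  have h0 : (0 : ℝ) < 1 / (2 * (n : ℝ)) := by positivity
  have h1 := mass_pos h0
  have h2 : mass (1 / (2 * (n : ℝ))) ≤ mass 1 := by
    apply mass_mono h0.le
    rw [div_le_one (by positivity)]; linarith
  unfold X
  rw [mul_one_div, le_div_iff₀ h1]; linarith

set_option maxHeartbeats 1000000 in
theorem mom : ∃ C : ℝ, 0 ≤ C ∧ ∀ n : ℕ, 2 ≤ n → ∀ J : ℕ,
    ∑ R ∈ Icc 1 J, w R * pw n R ≤ C * (X n ^ 3 * Real.log n ^ 8) := by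
  obtain ⟨K, hK, hleg⟩ := Pool.Agent.Y981.L2X.pw_legendre
  obtain ⟨B, hB⟩ : ∃ B, B = mass 1 := ⟨_, rfl⟩
  have hB0 : 0 < B := by rw [hB]; exact mass_pos one_pos
  obtain ⟨A, hA⟩ : ∃ A : ℝ, A = (K + 8) / 2 := ⟨_, rfl⟩
  have hA0 : 0 < A := by rw [hA]; positivity
  refine ⟨192 * (A + 3 * B) ^ 3 + 576 * (3 * B) ^ 3, by positivity, fun n hn J => ?_⟩
  have hn0 : (0 : ℝ) < n := by exact_mod_cast (by omega : 0 < n)
  have hn2 : (2 : ℝ) ≤ n := by exact_mod_cast hn
  obtain ⟨L, hL⟩ : ∃ L, L = Real.log n := ⟨_, rfl⟩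
  have hL1 : 0.69 ≤ L := by
    have h1 := Real.log_two_gt_d9
    have h2 : Real.log 2 ≤ Real.log n := Real.log_le_log (by norm_num) hn2
    rw [hL]; linarith
  have hL0 : 0 < L := by linarith
  have hX := X_pos (show 1 ≤ n by omega)
  have hX1 := one_le_X (show 1 ≤ n by omega)
  rw [← hB] at hX1
  rw [← hL]
  -- the level
  obtain ⟨k0, hk0⟩ : ∃ k0 : ℕ, k0 = ⌈A * X n * L ^ 2⌉₊ := ⟨_, rfl⟩
  have hk1 : A * X n * L ^ 2 ≤ k0 := by rw [hk0]; exact Nat.le_ceil _
  have hk2 : (k0 : ℝ) ≤ A * X n * L ^ 2 + 1 := by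
    rw [hk0]; exact (Nat.ceil_lt_add_one (by positivity)).le
  have hone : 1 ≤ 3 * B * X n * L ^ 2 := by
    have h1 : 0.47 ≤ L ^ 2 := by nlinarith
    nlinarith
  have hk3 : (k0 : ℝ) ≤ (A + 3 * B) * (X n * L ^ 2) := by nlinarith
  have hk01 : 1 ≤ k0 := by
    have : (0 : ℝ) < k0 := lt_of_lt_of_le (by positivity) hk1
    exact_mod_cast this
  -- logarithms
  have hlog : Real.log (2 * (n : ℝ) + 1) ≤ 4 * L := by
    have h1 : 2 * (n : ℝ) + 1 ≤ (n : ℝ) ^ 4 := by nlinarith [sq_nonneg ((n : ℝ) ^ 2 - 4)]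
    have h2 := Real.log_le_log (by positivity) h1
    rw [Real.log_pow] at h2
    rw [hL]; push_cast at h2; linarith
  have hlog0 : 0 ≤ Real.log (2 * (n : ℝ) + 1) := Real.log_nonneg (by linarith)
  have hlogsq : Real.log (2 * (n : ℝ) + 1) ^ 2 ≤ 16 * L ^ 2 := by nlinarith
  -- truncation at `2 n`
  have htr : ∑ R ∈ Icc 1 J, w R * pw n R ≤ ∑ R ∈ Icc 1 (2 * n), w R * pw n R := by
    have h1 : ∑ R ∈ Icc 1 J, w R * pw n R ≤ ∑ R ∈ Icc 1 (max J (2 * n)), w R * pw n R := by
      apply Finset.sum_le_sum_of_subset_of_nonneg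
      · exact Finset.Icc_subset_Icc_right (le_max_left _ _)
      · intro R _ _; exact mul_nonneg (w_nonneg R) (pw_nonneg _ _)
    refine h1.trans (le_of_eq ?_)
    symm
    apply Finset.sum_subset
    · exact Finset.Icc_subset_Icc_right (le_max_right _ _)
    · intro R hR1 hR2
      rw [Finset.mem_Icc] at hR1
      rw [Finset.mem_Icc] at hR2
      rw [pw_big hn (by omega), mul_zero]
  refine htr.trans ?_
  have hfin : 192 * (k0 : ℝ) ^ 3 * L ^ 2 + 576 * L ^ 2 ≤
      (192 * (A + 3 * B) ^ 3 + 576 * (3 * B) ^ 3) * (X n ^ 3 * L ^ 8) := by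
    have h1 : (k0 : ℝ) ^ 3 ≤ ((A + 3 * B) * (X n * L ^ 2)) ^ 3 :=
      pow_le_pow_left₀ (Nat.cast_nonneg _) hk3 3
    have h2 : 1 ≤ (3 * B * X n * L ^ 2) ^ 3 := one_le_pow₀ hone
    have h3 : 0 ≤ L ^ 2 := by positivity
    calc 192 * (k0 : ℝ) ^ 3 * L ^ 2 + 576 * L ^ 2 ≤
          192 * ((A + 3 * B) * (X n * L ^ 2)) ^ 3 * L ^ 2 +
            576 * (3 * B * X n * L ^ 2) ^ 3 * L ^ 2 := by nlinarith
      _ = _ := by ring
  refine le_trans ?_ hfin
  have hw2n : ∀ m : ℕ, m ≤ 2 * n → w m ≤ m * (m + 1) * (16 * L ^ 2) := by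
    intro m hm
    unfold w
    have h1 : (m : ℝ) ≤ 2 * n := by exact_mod_cast hm
    have h2 : Real.log ((m : ℝ) + 1) ≤ Real.log (2 * (n : ℝ) + 1) :=
      Real.log_le_log (by positivity) (by linarith)
    have h3 : 0 ≤ Real.log ((m : ℝ) + 1) := Real.log_nonneg (by
      have : (0 : ℝ) ≤ m := Nat.cast_nonneg m
      linarith)
    have h4 : Real.log ((m : ℝ) + 1) ^ 2 ≤ 16 * L ^ 2 :=
      (pow_le_pow_left₀ h3 h2 2).trans hlogsq
    exact mul_le_mul_of_nonneg_left h4 (by positivity)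
  have hw2' : w (2 * n) ≤ 96 * n ^ 2 * L ^ 2 := by
    have hw2 := hw2n (2 * n) le_rfl
    have h1 : ((2 * n : ℕ) : ℝ) * ((2 * n : ℕ) + 1) ≤ 6 * n ^ 2 := by push_cast; nlinarith
    have h2 : 0 ≤ 16 * L ^ 2 := by positivity
    calc w (2 * n) ≤ ((2 * n : ℕ) : ℝ) * ((2 * n : ℕ) + 1) * (16 * L ^ 2) := hw2
      _ ≤ 6 * n ^ 2 * (16 * L ^ 2) := mul_le_mul_of_nonneg_right h1 h2
      _ = _ := by ring
  rcases Nat.lt_or_ge k0 n with hkn | hkn
  · -- split at `k0`
    have h1 : ∑ R ∈ Icc 1 (2 * n), w R * pw n R ≤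
        ∑ R ∈ Icc 1 k0, w k0 + ∑ R ∈ Icc 1 (2 * n), w (2 * n) * pw n k0 := by
      have h2 : ∀ R ∈ Icc 1 (2 * n), w R * pw n R ≤
          (if R ≤ k0 then w k0 else 0) + w (2 * n) * pw n k0 := by
        intro R hR
        rw [Finset.mem_Icc] at hR
        split_ifs with h
        · have h3 : w R * pw n R ≤ w k0 := by
            calc w R * pw n R ≤ w R * 1 :=
                  mul_le_mul_of_nonneg_left (pw_le_one (by omega) _) (w_nonneg R)
              _ ≤ w k0 := by rw [mul_one]; exact w_mono h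
          have h4 : 0 ≤ w (2 * n) * pw n k0 := mul_nonneg (w_nonneg _) (pw_nonneg _ _)
          linarith
        · rw [zero_add]
          apply mul_le_mul (w_mono hR.2) _ (pw_nonneg _ _) (w_nonneg _)
          apply pw_anti (by omega)
          exact_mod_cast (by omega : k0 ≤ R)
      refine (Finset.sum_le_sum h2).trans ?_
      rw [Finset.sum_add_distrib]
      apply add_le_add_left
      rw [← Finset.sum_filter]
      apply Finset.sum_le_sum_of_subset_of_nonneg
      · intro R hR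
        rw [Finset.mem_filter, Finset.mem_Icc] at hR
        rw [Finset.mem_Icc]; omega
      · intro R _ _; exact w_nonneg _
    refine h1.trans ?_
    rw [Finset.sum_const, Finset.sum_const, Nat.card_Icc, Nat.card_Icc, nsmul_eq_mul, nsmul_eq_mul]
    simp only [Nat.add_sub_cancel]
    have hpw : pw n k0 ≤ Real.exp (1 - 8 * L ^ 2) := by
      rcases (pw_nonneg n k0).lt_or_eq with h | h
      · have h2 := (hleg n hn k0 hk01 hkn).1 (1 / (2 * (n : ℝ))) (by positivity)
        rw [← Real.exp_log h]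
        apply Real.exp_le_exp.2
        refine h2.trans ?_
        rw [← hL]
        have e1 : 2 * (n : ℝ) * (1 / (2 * n)) = 1 := by field_simp
        rw [e1]
        have hm : 0 < mass (1 / (2 * (n : ℝ))) := mass_pos (by positivity)
        have e2 : X n * mass (1 / (2 * (n : ℝ))) = 1 := by
          unfold X; field_simp
        have h3 : A * L ^ 2 ≤ k0 * mass (1 / (2 * (n : ℝ))) := by
          calc A * L ^ 2 = (A * X n * L ^ 2) * mass (1 / (2 * (n : ℝ))) := by
                rw [show (A * X n * L ^ 2) * mass (1 / (2 * (n : ℝ))) =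
                  A * L ^ 2 * (X n * mass (1 / (2 * (n : ℝ)))) by ring, e2, mul_one]
            _ ≤ _ := mul_le_mul_of_nonneg_right hk1 hm.le
        have h4 : 2 * (A * L ^ 2) = K * L ^ 2 + 8 * L ^ 2 := by rw [hA]; ring
        linarith
      · rw [← h]; positivity
    have hw1 := hw2n k0 (by omega)
    have hkr : (1 : ℝ) ≤ k0 := by exact_mod_cast hk01
    have s1 : (k0 : ℝ) * w k0 ≤ 32 * k0 ^ 3 * L ^ 2 := by
      calc (k0 : ℝ) * w k0 ≤ k0 * (k0 * (k0 + 1) * (16 * L ^ 2)) := by gcongr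
        _ ≤ k0 * (k0 * (k0 + k0) * (16 * L ^ 2)) := by gcongr
        _ = _ := by ring
    have s2 : ((2 * n : ℕ) : ℝ) * (w (2 * n) * pw n k0) ≤ 576 * L ^ 2 := by
      have h6 : (n : ℝ) ^ 3 * Real.exp (1 - 8 * L ^ 2) ≤ 3 := by
        have h7 : (n : ℝ) ^ 3 = Real.exp (3 * L) := by
          rw [hL, ← Real.rpow_natCast, Real.rpow_def_of_pos hn0]
          congr 1; push_cast; ring
        rw [h7, ← Real.exp_add]
        have h8 : 3 * L + (1 - 8 * L ^ 2) ≤ 1 := by nlinarith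
        have h9 := Real.exp_le_exp.2 h8
        have h10 := Real.exp_one_lt_d9
        linarith
      calc ((2 * n : ℕ) : ℝ) * (w (2 * n) * pw n k0) ≤
            (2 * n) * ((96 * n ^ 2 * L ^ 2) * Real.exp (1 - 8 * L ^ 2)) := by
              push_cast
              apply mul_le_mul_of_nonneg_left _ (by positivity)
              exact mul_le_mul hw2' hpw (pw_nonneg _ _) (by positivity)
        _ = 192 * L ^ 2 * ((n : ℝ) ^ 3 * Real.exp (1 - 8 * L ^ 2)) := by ring
        _ ≤ 192 * L ^ 2 * 3 := by gcongr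
        _ = _ := by ring
    have s3 : 0 ≤ (k0 : ℝ) ^ 3 * L ^ 2 := by positivity
    linarith
  · -- everything is below the level
    have h1 : ∑ R ∈ Icc 1 (2 * n), w R * pw n R ≤ ∑ R ∈ Icc 1 (2 * n), w (2 * n) := by
      apply Finset.sum_le_sum
      intro R hR
      calc w R * pw n R ≤ w R * 1 :=
            mul_le_mul_of_nonneg_left (pw_le_one (by omega) _) (w_nonneg R)
        _ ≤ w (2 * n) := by rw [mul_one]; exact w_mono (Finset.mem_Icc.mp hR).2
    refine h1.trans ?_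
    rw [Finset.sum_const, Nat.card_Icc, nsmul_eq_mul]
    simp only [Nat.add_sub_cancel]
    have hnk : (n : ℝ) ≤ k0 := by exact_mod_cast hkn
    have h6 : (n : ℝ) ^ 3 ≤ (k0 : ℝ) ^ 3 := pow_le_pow_left₀ hn0.le hnk 3
    calc ((2 * n : ℕ) : ℝ) * w (2 * n) ≤ (2 * n) * (96 * n ^ 2 * L ^ 2) := by
          push_cast
          exact mul_le_mul_of_nonneg_left hw2' (by positivity)
      _ = 192 * (n : ℝ) ^ 3 * L ^ 2 := by ring
      _ ≤ 192 * (k0 : ℝ) ^ 3 * L ^ 2 := by gcongr
      _ ≤ _ := by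
          have : 0 ≤ 576 * L ^ 2 := by positivity
          linarith

end Pool.Agent.H98P
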