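import Pool.Agent.H98P.Glue

/-!
Each polygon contains at most one loop that is tangent to its translate by `v`.
-/

set_option autoImplicit false

namespace Pool.Agent.H98P

/-- signs -/
def sg (N : ℕ) (b : Bool) : ZMod N := if b then 1 else -1

theorem sg_mul_self (N : ℕ) (b : Bool) : sg N b * sg N b = 1 := by
  unfold sg; cases b <;> simp

/-- another root and orientation -/
def rer {N : ℕ} (f : ZMod N → ℤ × ℤ) (c : ZMod N) (b : Bool) : ZMod N → ℤ × ℤ :=
  fun j => f (c + sg N b * j) - f c

theorem rer_loop {N : ℕ} {f : ZMod N → ℤ × ℤ} (h : IsLoop N f) (c : ZMod N) (b : Bool) :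
    IsLoop N (rer f c b) := by
  refine ⟨by simp [rer], ?_, ?_⟩
  · intro i j hij
    have h1 : f (c + sg N b * i) = f (c + sg N b * j) := sub_left_injective hij
    have h2 := add_left_cancel (h.2.1 h1)
    calc i = sg N b * (sg N b * i) := by rw [← mul_assoc, sg_mul_self, one_mul]
      _ = sg N b * (sg N b * j) := by rw [h2]
      _ = j := by rw [← mul_assoc, sg_mul_self, one_mul]
  · intro i
    unfold rer sg
    cases b
    · have h1 := h.2.2 (c - (i + 1))
      have e : c - (i + 1) + 1 = c - i := by ring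
      rw [e, abs_sub_comm, abs_sub_comm (f (c - i)).2] at h1
      have e1 : c + (if false = true then 1 else -1) * (i + 1) = c - (i + 1) := by simp; ring
      have e2 : c + (if false = true then 1 else -1) * i = c - i := by simp; ring
      rw [e1, e2]
      simpa using h1
    · have h1 := h.2.2 (c + i)
      have e : c + i + 1 = c + (i + 1) := by ring
      rw [e] at h1
      simpa using h1

/-- loops containing two points with difference `v` -/
abbrev LPv (N : ℕ) (v : ℤ × ℤ) : Type := {f : ZMod N → ℤ × ℤ // IsLoop N f ∧ ∃ i j, f i = f j + v}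

/-- loops of width at least `R` -/
abbrev LW (N R : ℕ) : Type :=
  {f : ZMod N → ℤ × ℤ // IsLoop N f ∧ ∃ i j, (R : ℤ) ≤ (f i).1 - (f j).1}

instance (N : ℕ) [NeZero N] (v : ℤ × ℤ) : Finite (LPv N v) :=
  Finite.of_injective (fun f => (⟨f.1, f.2.1⟩ : {f : ZMod N → ℤ × ℤ // IsLoop N f}))
    fun f g h => Subtype.ext (by simpa using h)

instance (N : ℕ) [NeZero N] (R : ℕ) : Finite (LW N R) :=
  Finite.of_injective (fun f => (⟨f.1, f.2.1⟩ : {f : ZMod N → ℤ × ℤ // IsLoop N f}))
    fun f g h => Subtype.ext (by simpa using h)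

theorem rer_inj {N : ℕ} (hN : 3 ≤ N) {v : ℤ × ℤ} {a a' : ℕ} {f f' : ZMod N → ℤ × ℤ}
    (h : Tan N v a f) (h' : Tan N v a' f') {c c' : ZMod N} {b b' : Bool}
    (e : rer f c b = rer f' c' b') : f = f' ∧ c = c' ∧ b = b' := by
  have e1 : ∀ j, f (c + sg N b * j) - f c = f' (c' + sg N b' * j) - f' c' := fun j => congrFun e j
  -- every value of `f` is a translated value of `f'`
  have e2 : ∀ i, ∃ i', f' i' = f i - (f c - f' c') := by
    intro i
    refine ⟨c' + sg N b' * (sg N b * (i - c)), ?_⟩
    have h1 := e1 (sg N b * (i - c))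
    have h2 : c + sg N b * (sg N b * (i - c)) = i := by
      rw [← mul_assoc, sg_mul_self]; ring
    rw [h2] at h1
    have : f' (c' + sg N b' * (sg N b * (i - c))) =
      (f' (c' + sg N b' * (sg N b * (i - c))) - f' c') + f' c' := by abel
    rw [this, ← h1]; abel
  obtain ⟨u, hu⟩ : ∃ u, u = f c - f' c' := ⟨_, rfl⟩
  rw [← hu] at e2
  have hu0 : u = 0 := by
    obtain ⟨x, hx⟩ := e2 a
    obtain ⟨y, hy⟩ := e2 0
    obtain ⟨x2, hx2⟩ := e2 (a + 1)
    obtain ⟨y2, hy2⟩ := e2 (-1)
    rw [h.fa] at hx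
    rw [h.loop.1] at hy
    rw [h.fa1] at hx2
    rw [h.fm] at hy2
    have s1 := h'.star x y (by rw [hx, hy]; abel)
    have s2 := h'.star x2 y2 (by rw [hx2, hy2]; abel)
    rw [hx] at s1
    rw [hx2] at s2
    have k1 : u.1 = 0 ∧ (u.2 = 0 ∨ u.2 = -1) := by
      rcases s1 with s | s
      · have a1 := congrArg Prod.fst s
        have a2 := congrArg Prod.snd s
        simp at a1 a2
        exact ⟨by omega, by omega⟩
      · have a1 := congrArg Prod.fst s
        have a2 := congrArg Prod.snd s
        simp at a1 a2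
        exact ⟨by omega, by omega⟩
    have k2 : u.2 = 0 ∨ u.2 = 1 := by
      rcases s2 with s | s
      · have a2 := congrArg Prod.snd s
        simp at a2
        omega
      · have a2 := congrArg Prod.snd s
        simp at a2
        omega
    ext
    · exact k1.1
    · simp only [Prod.snd_zero]; omega
  have hcc : f c = f' c' := by
    have : f c = (f c - f' c') + f' c' := by abel
    rw [this, ← hu, hu0, zero_add]
  have e3 : ∀ i, f i = f' (c' + sg N b' * (sg N b * (i - c))) := by
    intro i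
    have h1 := e1 (sg N b * (i - c))
    have h2 : c + sg N b * (sg N b * (i - c)) = i := by
      rw [← mul_assoc, sg_mul_self]; ring
    rw [h2, hcc] at h1
    exact sub_left_injective h1
  have e4 : c' = sg N b' * (sg N b * c) := by
    have h1 := e3 0
    rw [h.loop.1, ← h'.loop.1] at h1
    have h2 := h'.loop.2.1 h1
    have : c' = (c' + sg N b' * (sg N b * (0 - c))) + sg N b' * (sg N b * c) := by ring
    rw [this, ← h2, zero_add]
  have e5 : ∀ i, f i = f' (sg N b' * (sg N b * i)) := by
    intro i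
    rw [e3 i]
    congr 1
    rw [e4]; ring
  have hbb : b = b' := by
    by_contra hne
    have hs : ∀ i : ZMod N, sg N b' * (sg N b * i) = - i := by
      intro i
      unfold sg
      cases b <;> cases b' <;> simp_all
    have h1 := e5 (-1)
    rw [hs, neg_neg, h.fm, ← h'.fm] at h1
    have h2 := h'.loop.2.1 h1
    have h3 : ((2 : ℕ) : ZMod N) = 0 := by
      push_cast
      have : (2 : ZMod N) = 1 + 1 := by norm_num
      rw [this]
      nth_rewrite 1 [← h2]
      ring
    rw [ZMod.natCast_eq_zero_iff] at h3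
    have := Nat.le_of_dvd (by norm_num) h3
    omega
  subst hbb
  have hs : ∀ i : ZMod N, sg N b * (sg N b * i) = i := by
    intro i
    rw [← mul_assoc, sg_mul_self, one_mul]
  refine ⟨?_, ?_, rfl⟩
  · funext i
    rw [e5 i, hs]
  · rw [e4, hs]

/-- **each polygon is tangent to its translate at most once** -/
theorem orbit_ineq (N : ℕ) (hN : 3 ≤ N) (v : ℤ × ℤ) :
    (∑ a : Fin N, Nat.card {f : ZMod N → ℤ × ℤ // Tan N v a f}) * (2 * N) ≤
      Nat.card (LPv N v) := by
  have : NeZero N := ⟨by omega⟩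
  let Φ : (Σ a : Fin N, {f : ZMod N → ℤ × ℤ // Tan N v a f}) × (Bool × ZMod N) → LPv N v :=
    fun x => ⟨rer x.1.2.1 x.2.2 x.2.1, rer_loop x.1.2.2.loop _ _, by
      refine ⟨sg N x.2.1 * (((x.1.1 : ℕ) : ZMod N) - x.2.2), sg N x.2.1 * (0 - x.2.2), ?_⟩
      unfold rer
      rw [← mul_assoc, ← mul_assoc, sg_mul_self, one_mul, one_mul]
      have e1 : x.2.2 + (((x.1.1 : ℕ) : ZMod N) - x.2.2) = ((x.1.1 : ℕ) : ZMod N) := by ring
      have e2 : x.2.2 + (0 - x.2.2) = 0 := by ring
      rw [e1, e2, x.1.2.2.fa, x.1.2.2.loop.1]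
      abel⟩
  have hΦ : Function.Injective Φ := by
    rintro ⟨⟨a, f⟩, b, c⟩ ⟨⟨a', f'⟩, b', c'⟩ h
    have h1 : rer f.1 c b = rer f'.1 c' b' := congrArg Subtype.val h
    obtain ⟨h2, h3, h4⟩ := rer_inj hN f.2 f'.2 h1
    have h5 : a = a' := by
      have h6 : f'.1 ((a : ℕ) : ZMod N) = f'.1 ((a' : ℕ) : ZMod N) := by
        have h8 := f.2.fa
        rw [h2] at h8
        exact h8.trans f'.2.fa.symm
      have h7 := congrArg ZMod.val (f'.2.loop.2.1 h6)
      rw [ZMod.val_natCast_of_lt a.2, ZMod.val_natCast_of_lt a'.2] at h7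
      exact Fin.ext h7
    subst h5
    have h6 : f = f' := Subtype.ext h2
    rw [h6, h3, h4]
  have h := Nat.card_le_card_of_injective Φ hΦ
  rw [Nat.card_prod, Nat.card_prod, Nat.card_sigma] at h
  simpa using h

theorem LPv_le (N : ℕ) [NeZero N] (v : ℤ × ℤ) (hv : 1 ≤ v.1) :
    Nat.card (LPv N v) ≤ Nat.card (LW N (max v.1.toNat v.2.natAbs)) := by
  rcases Nat.le_total v.2.natAbs v.1.toNat with h | h
  · rw [max_eq_left h]
    refine Nat.card_le_card_of_injective (fun f => ⟨f.1, f.2.1, ?_⟩) ?_
    · obtain ⟨i, j, hij⟩ := f.2.2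
      refine ⟨i, j, ?_⟩
      rw [hij]
      simp only [Prod.fst_add]
      omega
    · intro f g hfg
      have := congrArg Subtype.val hfg
      exact Subtype.ext this
  · rw [max_eq_right h]
    refine Nat.card_le_card_of_injective (fun f => ⟨fun i => (f.1 i).swap, ⟨?_, ?_, ?_⟩, ?_⟩) ?_
    · simp only [f.2.1.1]; rfl
    · intro i j hij
      exact f.2.1.2.1 (Prod.swap_injective hij)
    · intro i
      have := f.2.1.2.2 i
      simp only [Prod.fst_swap, Prod.snd_swap]
      rw [add_comm]
      exact this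
    · obtain ⟨i, j, hij⟩ := f.2.2
      have e : (f.1 i).2 - (f.1 j).2 = v.2 := by
        rw [hij]; simp
      rcases Int.natAbs_eq v.2 with h2 | h2
      · refine ⟨i, j, ?_⟩
        simp only [Prod.fst_swap]
        omega
      · refine ⟨j, i, ?_⟩
        simp only [Prod.fst_swap]
        omega
    · intro f g hfg
      apply Subtype.ext
      funext i
      have := congrFun (congrArg Subtype.val hfg) i
      exact Prod.swap_injective this

theorem loop_even {N : ℕ} {f : ZMod N → ℤ × ℤ} (h : IsLoop N f) : Even N := by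
  have key : ∀ a : ℕ, ((f a).1 + (f a).2 - a) % 2 = 0 := by
    intro a
    induction a with
    | zero => simp [h.1]
    | succ a ih =>
      have h1 := h.2.2 (a : ZMod N)
      have e : ((a + 1 : ℕ) : ZMod N) = (a : ZMod N) + 1 := by push_cast; rfl
      rw [e]
      push_cast
      rcases abs_cases ((f ((a : ZMod N) + 1)).1 - (f a).1) with h2 | h2 <;>
        rcases abs_cases ((f ((a : ZMod N) + 1)).2 - (f a).2) with h3 | h3 <;> omega
  have h1 := key N
  rw [ZMod.natCast_self, h.1] at h1
  simp at h1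
  have : ((N : ℤ)) % 2 = 0 := by omega
  exact (Nat.even_iff).mpr (by omega)

end Pool.Agent.H98P
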