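import Mathlib

/-!
Periodic self-avoiding paths on `ℤ²` and their last contact.
-/

set_option autoImplicit false

namespace Pool.Agent.H98P

/-- `F` is a bi-infinite self-avoiding nearest-neighbour path on `ℤ²` with `F 0 = 0` and
`F (k + n) = F k + v` -/
structure IsPer (n : ℕ) (v : ℤ × ℤ) (F : ℤ → ℤ × ℤ) : Prop where
  zero : F 0 = 0
  step : ∀ k, |(F (k + 1)).1 - (F k).1| + |(F (k + 1)).2 - (F k).2| = 1
  inj : Function.Injective F
  per : ∀ k, F (k + n) = F k + v

namespace IsPer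

variable {n : ℕ} {v : ℤ × ℤ} {F : ℤ → ℤ × ℤ}

theorem per_mul (h : IsPer n v F) (k m : ℤ) : F (k + m * n) = F k + m • v := by
  induction m using Int.induction_on with
  | zero => simp
  | succ i ih =>
    have e : k + ((i : ℤ) + 1) * n = (k + (i : ℤ) * n) + n := by ring
    rw [e, h.per, ih, add_smul, one_smul, add_assoc]
  | pred i ih =>
    have e : k + (-(i : ℤ)) * n = (k + (-(i : ℤ) - 1) * n) + n := by ring
    rw [e, h.per] at ih
    have h2 : F (k + (-(i : ℤ) - 1) * n) = F k + (-(i : ℤ)) • v - v := by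
      rw [← ih]; abel
    rw [h2, sub_smul, one_smul]; abel

theorem pos (h : IsPer n v F) (hv : 1 ≤ v.1) : 0 < n := by
  rcases Nat.eq_zero_or_pos n with h0 | h0
  · subst h0
    have := h.per 0
    simp only [Nat.cast_zero, add_zero] at this
    have h2 := congrArg Prod.fst this
    simp at h2
    omega
  · exact h0

theorem step_fst (h : IsPer n v F) (k : ℤ) : |(F (k + 1)).1 - (F k).1| ≤ 1 := by
  have := h.step k
  have := abs_nonneg ((F (k + 1)).2 - (F k).2)
  omega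

theorem step_snd (h : IsPer n v F) (k : ℤ) : |(F (k + 1)).2 - (F k).2| ≤ 1 := by
  have := h.step k
  have := abs_nonneg ((F (k + 1)).1 - (F k).1)
  omega

end IsPer

theorem lip_bound {f : ℤ → ℤ} (h : ∀ k, |f (k + 1) - f k| ≤ 1) (h0 : f 0 = 0) (k : ℤ) :
    |f k| ≤ |k| := by
  induction k using Int.induction_on with
  | zero => simp [h0]
  | succ i ih =>
    have h1 := h i
    have h2 : |f ((i : ℤ) + 1)| ≤ |f ((i : ℤ) + 1) - f i| + |f i| := by
      have := abs_add_le (f ((i : ℤ) + 1) - f i) (f i)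
      simpa using this
    have h3 : |(i : ℤ)| = i := abs_of_nonneg (by positivity)
    have h4 : |(i : ℤ) + 1| = i + 1 := abs_of_nonneg (by positivity)
    omega
  | pred i ih =>
    have h1 := h (-(i : ℤ) - 1)
    have e : -(i : ℤ) - 1 + 1 = -(i : ℤ) := by ring
    rw [e] at h1
    have h2 : |f (-(i : ℤ) - 1)| ≤ |f (-(i : ℤ)) - f (-(i : ℤ) - 1)| + |f (-(i : ℤ))| := by
      have := abs_sub_abs_le_abs_sub (f (-(i : ℤ) - 1)) (f (-(i : ℤ)))
      rw [abs_sub_comm] at this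
      omega
    have h3 : |-(i : ℤ)| = i := by rw [abs_neg]; exact abs_of_nonneg (by positivity)
    have h4 : |-(i : ℤ) - 1| = i + 1 := by
      rw [show -(i : ℤ) - 1 = -((i : ℤ) + 1) by ring, abs_neg]
      exact abs_of_nonneg (by positivity)
    omega

namespace IsPer

variable {n : ℕ} {v : ℤ × ℤ} {F : ℤ → ℤ × ℤ}

theorem fst_le (h : IsPer n v F) (k : ℤ) : |(F k).1| ≤ |k| :=
  lip_bound (f := fun k => (F k).1) h.step_fst (by simp [h.zero]) k

theorem snd_le (h : IsPer n v F) (k : ℤ) : |(F k).2| ≤ |k| :=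
  lip_bound (f := fun k => (F k).2) h.step_snd (by simp [h.zero]) k

/-- indices of points with bounded first coordinate are bounded -/
theorem idx_le (h : IsPer n v F) (hv : 1 ≤ v.1) {k : ℤ} {B : ℤ} (hB : |(F k).1| ≤ B) :
    |k| ≤ n + (B + n) * n := by
  have hn := h.pos hv
  have hn' : (0 : ℤ) < n := by exact_mod_cast hn
  obtain ⟨q, hq⟩ : ∃ q, q = k / (n : ℤ) := ⟨_, rfl⟩
  obtain ⟨r, hr⟩ : ∃ r, r = k % (n : ℤ) := ⟨_, rfl⟩
  have hk : k = r + q * n := by
    rw [hq, hr]; have := Int.emod_add_mul_ediv k n; linarith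
  have hr0 : 0 ≤ r := by rw [hr]; exact Int.emod_nonneg _ hn'.ne'
  have hr1 : r < n := by rw [hr]; exact Int.emod_lt_of_pos _ hn'
  have h1 : (F k).1 = (F r).1 + q * v.1 := by
    rw [hk, h.per_mul]; simp
  have h2 := h.fst_le r
  rw [abs_of_nonneg hr0] at h2
  have h3 : |q * v.1| ≤ B + n := by
    have e : q * v.1 = (F k).1 - (F r).1 := by rw [h1]; ring
    rw [e]
    have := abs_sub (F k).1 (F r).1
    omega
  have h4 : |q| ≤ B + n := by
    rw [abs_mul] at h3
    have h5 : 1 ≤ |v.1| := by rw [abs_of_pos (by omega)]; exact hv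
    nlinarith [abs_nonneg q]
  rw [hk]
  calc |r + q * n| ≤ |r| + |q * n| := abs_add_le _ _
    _ = r + |q| * n := by rw [abs_of_nonneg hr0, abs_mul, abs_of_pos hn']
    _ ≤ n + (B + n) * n := by nlinarith

/-- every level between `0` and `v.1` is attained -/
theorem exists_level (h : IsPer n v F) {t : ℤ} (h0 : 0 ≤ t) (ht : t ≤ v.1) :
    ∃ k : ℤ, (F k).1 = t := by
  classical
  have hex : ∃ k : ℕ, t ≤ (F k).1 := by
    refine ⟨n, ?_⟩
    have := h.per 0
    rw [zero_add, h.zero, zero_add] at this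
    rw [this]; exact ht
  obtain ⟨k, hk1, hk2⟩ : ∃ k : ℕ, t ≤ (F k).1 ∧ ∀ m < k, ¬ t ≤ (F m).1 :=
    ⟨Nat.find hex, Nat.find_spec hex, fun m hm => Nat.find_min hex hm⟩
  refine ⟨k, ?_⟩
  rcases Nat.eq_zero_or_pos k with hk | hk
  · subst hk
    simp only [Nat.cast_zero, h.zero, Prod.fst_zero] at hk1 ⊢
    omega
  · have h1 := hk2 (k - 1) (by omega)
    have h2 := h.step_fst ((k - 1 : ℕ) : ℤ)
    have e : ((k - 1 : ℕ) : ℤ) + 1 = k := by omega
    rw [e, abs_le] at h2
    push Not at h1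
    omega

end IsPer

/-- the last contact of two periodic paths when the second one comes from above -/
theorem exists_contact {n₁ n₂ : ℕ} {v : ℤ × ℤ} {F G : ℤ → ℤ × ℤ} (hF : IsPer n₁ v F)
    (hG : IsPer n₂ v G) (hv : 1 ≤ v.1) {t : ℤ} (h0 : 0 ≤ t) (ht : t < v.1) :
    ∃ k l s : ℤ, 0 ≤ k ∧ k < n₁ ∧ F k = G l + (t, s) ∧
      ∀ i j s' : ℤ, s < s' → F i ≠ G j + (t, s') := by
  have hn1 := hF.pos hv
  have hn1' : (0 : ℤ) < n₁ := by exact_mod_cast hn1
  -- reduction of a contact to the first period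
  have hred : ∀ {i j s : ℤ}, F i = G j + (t, s) →
      ∃ k l : ℤ, 0 ≤ k ∧ k < n₁ ∧ F k = G l + (t, s) := by
    intro i j s hij
    refine ⟨i % n₁, j + (-(i / n₁)) * n₂, Int.emod_nonneg _ hn1'.ne', Int.emod_lt_of_pos _ hn1', ?_⟩
    have e : i % (n₁ : ℤ) = i + (-(i / (n₁ : ℤ))) * n₁ := by
      have := Int.emod_add_mul_ediv i n₁; linarith
    rw [e, hF.per_mul, hG.per_mul, hij]
    abel
  obtain ⟨s, ⟨k0, l0, hs⟩, hmax⟩ : ∃ s : ℤ, (∃ i j, F i = G j + (t, s)) ∧
      ∀ s', (∃ i j, F i = G j + (t, s')) → s' ≤ s := by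
    apply Int.exists_greatest_of_bdd
    · refine ⟨n₁ + (n₂ + ((n₁ + t) + n₂) * n₂), ?_⟩
      rintro s ⟨i, j, hij⟩
      obtain ⟨k, l, hk0, hk1, hkl⟩ := hred hij
      have e1 : (F k).1 = (G l).1 + t := by rw [hkl]; rfl
      have e2 : (F k).2 = (G l).2 + s := by rw [hkl]; rfl
      have b1 := hF.fst_le k
      have b2 := hF.snd_le k
      rw [abs_of_nonneg hk0] at b1 b2
      have b3 : |(G l).1| ≤ n₁ + t := by
        have e : (G l).1 = (F k).1 - t := by rw [e1]; ring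
        rw [e]
        have := abs_sub (F k).1 t
        rw [abs_of_nonneg h0] at this
        omega
      have b4 := hG.idx_le hv b3
      have b5 := hG.snd_le l
      rw [abs_le] at b2 b5
      omega
    · obtain ⟨k, hk⟩ := hF.exists_level h0 ht.le
      refine ⟨(F k).2, k, 0, ?_⟩
      rw [hG.zero, zero_add, ← hk]
  obtain ⟨k, l, hk0, hk1, hkl⟩ := hred hs
  refine ⟨k, l, s, hk0, hk1, hkl, ?_⟩
  intro i j s' hs' h
  have := hmax s' ⟨i, j, h⟩
  omega

end Pool.Agent.H98P
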