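import Mathlib

/-!
A renewal inequality.
-/

set_option autoImplicit false

namespace Pool.Agent.H98P

open Finset

theorem conv_le {g β : ℕ → ℝ} (hg : ∀ n, 0 ≤ g n) (hβ : ∀ n, 0 ≤ β n) (N : ℕ) :
    ∑ n ∈ range N, ∑ j ∈ range (n + 1), g j * β (n - j) ≤
      (∑ j ∈ range N, g j) * ∑ m ∈ range N, β m := by
  have h1 : ∑ n ∈ range N, ∑ j ∈ range (n + 1), g j * β (n - j) =
      ∑ j ∈ range N, ∑ n ∈ Ico j N, g j * β (n - j) := by
    apply Finset.sum_comm'
    intro x y
    simp only [mem_range, mem_Ico]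
    omega
  rw [h1, Finset.sum_mul]
  apply Finset.sum_le_sum
  intro j hj
  rw [← Finset.mul_sum]
  apply mul_le_mul_of_nonneg_left _ (hg j)
  rw [Finset.sum_Ico_eq_sum_range]
  calc ∑ i ∈ range (N - j), β (j + i - j) = ∑ i ∈ range (N - j), β i := by
        apply Finset.sum_congr rfl
        intro i _
        congr 1; omega
    _ ≤ ∑ m ∈ range N, β m := by
        apply Finset.sum_le_sum_of_subset_of_nonneg
        · apply Finset.range_subset_range.mpr; omega
        · intro i _ _; exact hβ i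

/-- if `n β_n ≤ ∑_{j ≤ n} r_j β_{n-j}` and `∑ r_j / j` converges then `∑ β_n` converges -/
theorem ren_summable {β r : ℕ → ℝ} (hβ : ∀ n, 0 ≤ β n) (hr : ∀ n, 0 ≤ r n) (hr0 : r 0 = 0)
    (h : ∀ n : ℕ, (n : ℝ) * β n ≤ ∑ j ∈ range (n + 1), r j * β (n - j))
    (hs : Summable (fun j : ℕ => r j / j)) : Summable β := by
  have ha : ∀ j : ℕ, 0 ≤ r j / j := fun j => div_nonneg (hr j) (Nat.cast_nonneg j)
  -- tail
  obtain ⟨J, hJ⟩ : ∃ J : ℕ, ∀ N, J ≤ N → ∑ j ∈ Ico J N, r j / j ≤ 1 / 4 := by
    have h1 := hs.hasSum.tendsto_sum_nat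
    have h2 : ∀ᶠ J in Filter.atTop, (∑' j : ℕ, r j / j) - 1 / 4 < ∑ j ∈ range J, r j / j :=
      h1.eventually_const_lt (by linarith)
    obtain ⟨J, hJ⟩ := h2.exists
    refine ⟨J, fun N hN => ?_⟩
    have h3 := Finset.sum_range_add_sum_Ico (fun j : ℕ => r j / j) hN
    have h4 : ∑ j ∈ range N, r j / j ≤ ∑' j : ℕ, r j / j := hs.sum_le_tsum _ fun j _ => ha j
    linarith
  obtain ⟨M, hM0, hM⟩ : ∃ M : ℕ, 1 ≤ M ∧ ∑ j ∈ range J, r j ≤ M / 4 := by
    obtain ⟨M, hM⟩ := exists_nat_ge (4 * ∑ j ∈ range J, r j)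
    refine ⟨M + 1, by omega, ?_⟩
    push_cast
    linarith
  have hM' : (0 : ℝ) < M := by exact_mod_cast hM0
  let g : ℕ → ℝ := fun j => if j < J then r j / M else r j / j
  have hg : ∀ j, 0 ≤ g j := by
    intro j
    simp only [g]
    split_ifs
    · exact div_nonneg (hr j) hM'.le
    · exact ha j
  have hgs : ∀ N, ∑ j ∈ range N, g j ≤ 1 / 2 := by
    intro N
    have h1 : ∑ j ∈ range N, g j ≤ ∑ j ∈ range (max J N), g j := by
      apply Finset.sum_le_sum_of_subset_of_nonneg
      · apply Finset.range_subset_range.mpr; exact le_max_right _ _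
      · intro i _ _; exact hg i
    have h2 := Finset.sum_range_add_sum_Ico g (le_max_left J N)
    have h3 : ∑ j ∈ range J, g j ≤ 1 / 4 := by
      calc ∑ j ∈ range J, g j = ∑ j ∈ range J, r j / M := by
            apply Finset.sum_congr rfl
            intro j hj
            simp only [g]
            rw [if_pos (Finset.mem_range.mp hj)]
        _ = (∑ j ∈ range J, r j) / M := by rw [Finset.sum_div]
        _ ≤ (M / 4) / M := by gcongr
        _ = 1 / 4 := by field_simp
    have h4 : ∑ j ∈ Ico J (max J N), g j ≤ 1 / 4 := by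
      refine le_trans (le_of_eq ?_) (hJ _ (le_max_left J N))
      apply Finset.sum_congr rfl
      intro j hj
      simp only [g]
      rw [if_neg (by have := (Finset.mem_Ico.mp hj).1; omega)]
    linarith
  have hkey : ∀ n, M ≤ n → β n ≤ ∑ j ∈ range (n + 1), g j * β (n - j) := by
    intro n hn
    have hn' : (0 : ℝ) < n := by exact_mod_cast (by omega : 0 < n)
    have h1 := h n
    have h2 : β n ≤ (∑ j ∈ range (n + 1), r j * β (n - j)) / n := by
      rw [le_div_iff₀ hn']; linarith
    refine h2.trans ?_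
    rw [Finset.sum_div]
    apply Finset.sum_le_sum
    intro j hj
    rw [mul_div_right_comm]
    apply mul_le_mul_of_nonneg_right _ (hβ _)
    simp only [g]
    have hjn : j ≤ n := by have := Finset.mem_range.mp hj; omega
    split_ifs with hjJ
    · apply div_le_div_of_nonneg_left (hr j) hM'
      exact_mod_cast hn
    · rcases Nat.eq_zero_or_pos j with h0 | h0
      · subst h0; simp [hr0]
      · apply div_le_div_of_nonneg_left (hr j) (by exact_mod_cast h0)
        exact_mod_cast hjn
  apply summable_of_sum_range_le (c := 2 * ∑ n ∈ range M, β n) hβ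
  intro N
  have hB : ∑ n ∈ range N, β n ≤ ∑ n ∈ range (max M N), β n := by
    apply Finset.sum_le_sum_of_subset_of_nonneg
    · apply Finset.range_subset_range.mpr; exact le_max_right _ _
    · intro i _ _; exact hβ i
  have h1 := Finset.sum_range_add_sum_Ico β (le_max_left M N)
  have h2 : ∑ n ∈ Ico M (max M N), β n ≤
      ∑ n ∈ range (max M N), ∑ j ∈ range (n + 1), g j * β (n - j) := by
    calc ∑ n ∈ Ico M (max M N), β n ≤
          ∑ n ∈ Ico M (max M N), ∑ j ∈ range (n + 1), g j * β (n - j) :=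
          Finset.sum_le_sum fun n hn => hkey n (Finset.mem_Ico.mp hn).1
      _ ≤ _ := by
          apply Finset.sum_le_sum_of_subset_of_nonneg
          · intro n hn
            rw [Finset.mem_range]; exact (Finset.mem_Ico.mp hn).2
          · intro n _ _
            exact Finset.sum_nonneg fun j _ => mul_nonneg (hg j) (hβ _)
  have h3 := conv_le hg hβ (max M N)
  have h4 : (∑ j ∈ range (max M N), g j) * ∑ m ∈ range (max M N), β m ≤
      1 / 2 * ∑ m ∈ range (max M N), β m :=
    mul_le_mul_of_nonneg_right (hgs _) (Finset.sum_nonneg fun i _ => hβ i)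
  linarith

end Pool.Agent.H98P
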