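import Pool.Agent.H98P.Bri
import Pool.Agent.H98P.Ren

/-!
Summation of the gluing inequality.
-/

set_option autoImplicit false

namespace Pool.Agent.H98P

open Finset

/-- number of periodic paths -/
noncomputable def q (n : ℕ) (v : ℤ × ℤ) : ℝ := Nat.card {F : ℤ → ℤ × ℤ // IsPer n v F}

/-- number of tangent loops -/
noncomputable def tanc (v : ℤ × ℤ) (N a : ℕ) : ℝ :=
  Nat.card {f : ZMod N → ℤ × ℤ // Tan N v a f}

/-- normalised number of polygons of perimeter `N` and width at least `R` -/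
noncomputable def lw (N R : ℕ) : ℝ := (Nat.card (LW N R) : ℝ) / (2 * N) / H981.mu ^ N

/-- critical mass of the polygons of width at least `R` -/
noncomputable def PR (R : ℕ) : ℝ := ∑' N, lw N R

theorem q_nonneg (n : ℕ) (v : ℤ × ℤ) : 0 ≤ q n v := Nat.cast_nonneg _

theorem tanc_nonneg (v : ℤ × ℤ) (N a : ℕ) : 0 ≤ tanc v N a := Nat.cast_nonneg _

theorem lw_nonneg (N R : ℕ) : 0 ≤ lw N R := by
  have := H981.mu_pos
  unfold lw; positivity

theorem PR_nonneg (R : ℕ) : 0 ≤ PR R := tsum_nonneg fun N => lw_nonneg N R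

theorem reindex {h : ℕ → ℕ → ℝ} (h0 : ∀ N a, 0 ≤ h N a) (J : ℕ) :
    ∑ n₁ ∈ Icc 1 J, ∑ n₂ ∈ Icc 1 J, h (n₁ + n₂ + 2) n₁ ≤
      ∑ N ∈ Ico 3 (2 * J + 3), ∑ a ∈ range N, h N a := by
  have h1 : ∀ n₁ ∈ Icc 1 J, ∑ n₂ ∈ Icc 1 J, h (n₁ + n₂ + 2) n₁ ≤
      ∑ N ∈ Ico 3 (2 * J + 3), if n₁ < N then h N n₁ else 0 := by
    intro n₁ hn1
    rw [Finset.mem_Icc] at hn1
    have h2 : ∑ n₂ ∈ Icc 1 J, h (n₁ + n₂ + 2) n₁ =
        ∑ N ∈ (Icc 1 J).image (fun n₂ => n₁ + n₂ + 2), if n₁ < N then h N n₁ else 0 := by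
      rw [Finset.sum_image]
      · apply Finset.sum_congr rfl
        intro n₂ _
        rw [if_pos (by omega)]
      · intro a _ b _ hab
        simp only at hab
        omega
    rw [h2]
    apply Finset.sum_le_sum_of_subset_of_nonneg
    · intro N hN
      rw [Finset.mem_image] at hN
      obtain ⟨a, ha, rfl⟩ := hN
      rw [Finset.mem_Icc] at ha
      rw [Finset.mem_Ico]
      omega
    · intro N _ _
      split_ifs
      · exact h0 _ _
      · exact le_rfl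
  refine (Finset.sum_le_sum h1).trans ?_
  rw [Finset.sum_comm]
  apply Finset.sum_le_sum
  intro N hN
  rw [← Finset.sum_filter]
  apply Finset.sum_le_sum_of_subset_of_nonneg
  · intro a ha
    rw [Finset.mem_filter] at ha
    rw [Finset.mem_range]; exact ha.2
  · intro a _ _; exact h0 _ _

theorem sum_tanc_le (v : ℤ × ℤ) (hv : 1 ≤ v.1) (N : ℕ) (hN : 3 ≤ N) :
    ∑ a ∈ range N, tanc v N a / H981.mu ^ N ≤ lw N (max v.1.toNat v.2.natAbs) := by
  have : NeZero N := ⟨by omega⟩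
  have h1 := orbit_ineq N hN v
  have h2 := LPv_le N v hv
  have h3 : (((∑ a : Fin N, Nat.card {f : ZMod N → ℤ × ℤ // Tan N v a f}) * (2 * N) : ℕ) : ℝ) ≤
      (Nat.card (LW N (max v.1.toNat v.2.natAbs)) : ℝ) := by exact_mod_cast h1.trans h2
  have hmu := H981.mu_pos
  have hN' : (0 : ℝ) < 2 * N := by have : (0 : ℝ) < N := by exact_mod_cast (by omega : 0 < N)
                                   linarith
  unfold lw
  rw [← Finset.sum_div]
  apply div_le_div_of_nonneg_right _ (pow_pos hmu _).le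
  rw [le_div_iff₀ hN']
  refine le_trans (le_of_eq ?_) h3
  push_cast
  congr 1
  rw [Finset.sum_range]
  rfl

theorem A_sq (hsum : ∀ R, Summable fun N => lw N R) (J : ℕ) (v : ℤ × ℤ) (hv : 1 ≤ v.1) :
    (v.1 : ℝ) * (∑ n ∈ Icc 1 J, q n v / n / H981.mu ^ n) ^ 2 ≤
      H981.mu ^ 2 * PR (max v.1.toNat v.2.natAbs) := by
  have hmu := H981.mu_pos
  have h1 : (v.1 : ℝ) * (∑ n ∈ Icc 1 J, q n v / n / H981.mu ^ n) ^ 2 ≤
      H981.mu ^ 2 * ∑ n₁ ∈ Icc 1 J, ∑ n₂ ∈ Icc 1 J,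
        tanc v (n₁ + n₂ + 2) n₁ / H981.mu ^ (n₁ + n₂ + 2) := by
    rw [sq, Finset.sum_mul_sum, Finset.mul_sum, Finset.mul_sum]
    apply Finset.sum_le_sum
    intro n₁ hn1
    rw [Finset.mul_sum, Finset.mul_sum]
    apply Finset.sum_le_sum
    intro n₂ hn2
    rw [Finset.mem_Icc] at hn1 hn2
    have g := glue_ineq n₁ n₂ v hv
    have g' : ((v.1.toNat * (Nat.card {F // IsPer n₁ v F} * Nat.card {F // IsPer n₂ v F}) : ℕ) : ℝ)
      ≤ ((n₁ * (n₂ * Nat.card {f : ZMod (n₁ + n₂ + 2) → ℤ × ℤ // Tan (n₁ + n₂ + 2) v n₁ f}) : ℕ) :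
        ℝ) := by exact_mod_cast g
    have hT : ((v.1.toNat : ℕ) : ℝ) = (v.1 : ℝ) := by
      have : ((v.1.toNat : ℕ) : ℤ) = v.1 := Int.toNat_of_nonneg (by omega)
      exact_mod_cast this
    push_cast at g'
    rw [hT] at g'
    have hn1' : (0 : ℝ) < n₁ := by exact_mod_cast (by omega : 0 < n₁)
    have hn2' : (0 : ℝ) < n₂ := by exact_mod_cast (by omega : 0 < n₂)
    have e1 : (v.1 : ℝ) * (q n₁ v / n₁ / H981.mu ^ n₁ * (q n₂ v / n₂ / H981.mu ^ n₂)) =
        ((v.1 : ℝ) * (q n₁ v * q n₂ v)) / (n₁ * n₂) / H981.mu ^ (n₁ + n₂) := by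
      rw [pow_add]; field_simp
    have e2 : H981.mu ^ 2 * (tanc v (n₁ + n₂ + 2) n₁ / H981.mu ^ (n₁ + n₂ + 2)) =
        tanc v (n₁ + n₂ + 2) n₁ / H981.mu ^ (n₁ + n₂) := by
      rw [pow_add _ (n₁ + n₂)]; field_simp
    rw [e1, e2]
    apply div_le_div_of_nonneg_right _ (pow_pos hmu _).le
    rw [div_le_iff₀ (by positivity)]
    unfold q tanc
    calc _ ≤ _ := g'
      _ = _ := by ring
  refine h1.trans ?_
  apply mul_le_mul_of_nonneg_left _ (by positivity)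
  refine (reindex (h := fun N a => tanc v N a / H981.mu ^ N)
    (fun N a => div_nonneg (tanc_nonneg _ _ _) (pow_pos hmu _).le) J).trans ?_
  refine le_trans (Finset.sum_le_sum (g := fun N => lw N (max v.1.toNat v.2.natAbs)) ?_) ?_
  · intro N hN
    exact sum_tanc_le v hv N (Finset.mem_Ico.mp hN).1
  · exact (hsum _).sum_le_tsum _ fun N _ => lw_nonneg N _

theorem A_le (hsum : ∀ R, Summable fun N => lw N R) (J : ℕ) (v : ℤ × ℤ) (hv : 1 ≤ v.1) :
    ∑ n ∈ Icc 1 J, q n v / n / H981.mu ^ n ≤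
      H981.mu * (Real.sqrt (PR (max v.1.toNat v.2.natAbs)) / Real.sqrt v.1.toNat) := by
  have hmu := H981.mu_pos
  have h := A_sq hsum J v hv
  have hT : ((v.1.toNat : ℕ) : ℝ) = (v.1 : ℝ) := by
    have : ((v.1.toNat : ℕ) : ℤ) = v.1 := Int.toNat_of_nonneg (by omega)
    exact_mod_cast this
  have hT0 : (0 : ℝ) < v.1 := by exact_mod_cast (by omega : 0 < v.1)
  rw [hT]
  apply le_of_sq_le_sq _ (by positivity)
  rw [mul_pow, div_pow, Real.sq_sqrt (PR_nonneg _), Real.sq_sqrt hT0.le, ← mul_div_assoc,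
    le_div_iff₀ hT0]
  linarith

/-- the box of end vectors -/
theorem box_sum (f : ℕ → ℕ → ℝ) (h0 : ∀ T y, 0 ≤ f T y) (J : ℕ) :
    ∑ v ∈ Icc ((1 : ℤ), -(J : ℤ)) ((J : ℤ), (J : ℤ)), f v.1.toNat v.2.natAbs ≤
      2 * ∑ T ∈ Icc 1 J, ∑ y ∈ range (J + 1), f T y := by
  have h1 : ∑ v ∈ Icc ((1 : ℤ), -(J : ℤ)) ((J : ℤ), (J : ℤ)), f v.1.toNat v.2.natAbs ≤
      ∑ s : Bool, ∑ p ∈ (Icc 1 J) ×ˢ (range (J + 1)), f p.1 p.2 := by
    rw [← Finset.sum_product']
    let e : ℤ × ℤ → Bool × (ℕ × ℕ) := fun v => (decide (0 ≤ v.2), (v.1.toNat, v.2.natAbs))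
    have h2 : ∑ v ∈ Icc ((1 : ℤ), -(J : ℤ)) ((J : ℤ), (J : ℤ)), f v.1.toNat v.2.natAbs =
        ∑ x ∈ (Icc ((1 : ℤ), -(J : ℤ)) ((J : ℤ), (J : ℤ))).image e, f x.2.1 x.2.2 := by
      rw [Finset.sum_image]
      rintro ⟨a, b⟩ hab ⟨c, d⟩ hcd h
      have hab' := Finset.mem_Icc.mp hab
      have hcd' := Finset.mem_Icc.mp hcd
      have p1 : 1 ≤ a := hab'.1.1
      have p2 : 1 ≤ c := hcd'.1.1
      simp only [e, Prod.mk.injEq, decide_eq_decide] at h
      obtain ⟨q1, q2, q3⟩ := h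
      ext
      · simp only; omega
      · simp only; omega
    rw [h2]
    apply Finset.sum_le_sum_of_subset_of_nonneg
    · intro x hx
      rw [Finset.mem_image] at hx
      obtain ⟨v, hv, rfl⟩ := hx
      have hv' := Finset.mem_Icc.mp hv
      have p1 : 1 ≤ v.1 := hv'.1.1
      have p2 : -(J : ℤ) ≤ v.2 := hv'.1.2
      have p3 : v.1 ≤ J := hv'.2.1
      have p4 : v.2 ≤ J := hv'.2.2
      simp only [e, Finset.mem_product, Finset.mem_univ, Finset.mem_Icc, Finset.mem_range,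
        true_and]
      omega
    · intro x _ _; exact h0 _ _
  refine h1.trans (le_of_eq ?_)
  rw [Finset.sum_product, Fintype.sum_bool]
  ring

theorem sum_inv_sqrt (m : ℕ) : ∑ T ∈ Icc 1 m, 1 / Real.sqrt T ≤ 2 * Real.sqrt m := by
  induction m with
  | zero => simp
  | succ m ih =>
    rw [Finset.sum_Icc_succ_top (by omega)]
    have h1 : 0 < Real.sqrt ((m + 1 : ℕ) : ℝ) := Real.sqrt_pos.mpr (by positivity)
    have h2 : 0 ≤ Real.sqrt (m : ℝ) := Real.sqrt_nonneg _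
    have h3 : Real.sqrt ((m + 1 : ℕ) : ℝ) ^ 2 = m + 1 := by
      rw [Real.sq_sqrt (by positivity)]; push_cast; rfl
    have h4 : Real.sqrt (m : ℝ) ^ 2 = m := Real.sq_sqrt (by positivity)
    have h5 : 1 / Real.sqrt ((m + 1 : ℕ) : ℝ) ≤
        2 * Real.sqrt ((m + 1 : ℕ) : ℝ) - 2 * Real.sqrt (m : ℝ) := by
      rw [div_le_iff₀ h1]
      nlinarith [sq_nonneg (Real.sqrt ((m + 1 : ℕ) : ℝ) - Real.sqrt (m : ℝ))]
    linarith

theorem double_sum (s : ℕ → ℝ) (hs : ∀ R, 0 ≤ s R) (J : ℕ) :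
    ∑ T ∈ Icc 1 J, ∑ y ∈ range (J + 1), s (max T y) / Real.sqrt T ≤
      4 * ∑ R ∈ Icc 1 J, Real.sqrt R * s R := by
  have h1 : ∀ T ∈ Icc 1 J, ∑ y ∈ range (J + 1), s (max T y) / Real.sqrt T ≤
      2 * (Real.sqrt T * s T) + ∑ y ∈ Icc 1 J, if T < y then s y * (1 / Real.sqrt T) else 0 := by
    intro T hT
    rw [Finset.mem_Icc] at hT
    have hT0 : (0 : ℝ) < T := by exact_mod_cast (by omega : 0 < T)
    have hT1 : (1 : ℝ) ≤ T := by exact_mod_cast hT.1
    have hsT : 0 < Real.sqrt T := Real.sqrt_pos.mpr hT0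
    have h2 := Finset.sum_range_add_sum_Ico (fun y => s (max T y) / Real.sqrt T)
      (show T + 1 ≤ J + 1 by omega)
    have h3 : ∑ y ∈ range (T + 1), s (max T y) / Real.sqrt T ≤ 2 * (Real.sqrt T * s T) := by
      have h4 : ∑ y ∈ range (T + 1), s (max T y) / Real.sqrt T =
          ∑ y ∈ range (T + 1), s T / Real.sqrt T := by
        apply Finset.sum_congr rfl
        intro y hy
        rw [max_eq_left (by have := Finset.mem_range.mp hy; omega)]
      rw [h4, Finset.sum_const, Finset.card_range, nsmul_eq_mul, ← mul_div_assoc,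
        div_le_iff₀ hsT]
      have h5 : Real.sqrt (T : ℝ) * Real.sqrt T = T := Real.mul_self_sqrt hT0.le
      have h6 : 2 * (Real.sqrt T * s T) * Real.sqrt T = 2 * T * s T := by
        calc _ = 2 * (Real.sqrt (T : ℝ) * Real.sqrt T) * s T := by ring
          _ = _ := by rw [h5]
      rw [h6]
      apply mul_le_mul_of_nonneg_right _ (hs T)
      push_cast; linarith
    have h7 : ∑ y ∈ Ico (T + 1) (J + 1), s (max T y) / Real.sqrt T ≤
        ∑ y ∈ Icc 1 J, if T < y then s y * (1 / Real.sqrt T) else 0 := by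
      rw [← Finset.sum_filter]
      have h8 : ∑ y ∈ Ico (T + 1) (J + 1), s (max T y) / Real.sqrt T =
          ∑ y ∈ Ico (T + 1) (J + 1), s y * (1 / Real.sqrt T) := by
        apply Finset.sum_congr rfl
        intro y hy
        rw [max_eq_right (by have := Finset.mem_Ico.mp hy; omega)]
        ring
      rw [h8]
      apply Finset.sum_le_sum_of_subset_of_nonneg
      · intro y hy
        rw [Finset.mem_Ico] at hy
        rw [Finset.mem_filter, Finset.mem_Icc]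
        omega
      · intro y _ _
        have := hs y
        positivity
    linarith
  refine (Finset.sum_le_sum h1).trans ?_
  rw [Finset.sum_add_distrib, ← Finset.mul_sum, Finset.sum_comm]
  have h2 : ∑ y ∈ Icc 1 J, ∑ T ∈ Icc 1 J, (if T < y then s y * (1 / Real.sqrt T) else 0) ≤
      ∑ y ∈ Icc 1 J, 2 * (Real.sqrt y * s y) := by
    apply Finset.sum_le_sum
    intro y hy
    rw [← Finset.sum_filter, ← Finset.mul_sum]
    have h3 : ∑ T ∈ (Icc 1 J).filter (fun T => T < y), 1 / Real.sqrt (T : ℝ) ≤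
        ∑ T ∈ Icc 1 y, 1 / Real.sqrt (T : ℝ) := by
      apply Finset.sum_le_sum_of_subset_of_nonneg
      · intro T hT
        rw [Finset.mem_filter, Finset.mem_Icc] at hT
        rw [Finset.mem_Icc]; omega
      · intro T _ _; positivity
    have h4 := sum_inv_sqrt y
    calc s y * ∑ T ∈ (Icc 1 J).filter (fun T => T < y), 1 / Real.sqrt (T : ℝ) ≤
          s y * (2 * Real.sqrt y) := mul_le_mul_of_nonneg_left (h3.trans h4) (hs y)
      _ = _ := by ring
  rw [← Finset.mul_sum] at h2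
  linarith

/-- total number of periodic paths -/
noncomputable def qq (n : ℕ) : ℝ := ∑ v ∈ Icc ((1 : ℤ), -(n : ℤ)) ((n : ℤ), (n : ℤ)), q n v

theorem qq_nonneg (n : ℕ) : 0 ≤ qq n := Finset.sum_nonneg fun v _ => q_nonneg n v

theorem qq_sum_le (hsum : ∀ R, Summable fun N => lw N R) (J : ℕ) :
    ∑ n ∈ Icc 1 J, qq n / n / H981.mu ^ n ≤
      8 * H981.mu * ∑ R ∈ Icc 1 J, Real.sqrt (R * PR R) := by
  have hmu := H981.mu_pos
  have h1 : ∑ n ∈ Icc 1 J, qq n / n / H981.mu ^ n ≤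
      ∑ n ∈ Icc 1 J, ∑ v ∈ Icc ((1 : ℤ), -(J : ℤ)) ((J : ℤ), (J : ℤ)),
        q n v / n / H981.mu ^ n := by
    apply Finset.sum_le_sum
    intro n hn
    rw [Finset.mem_Icc] at hn
    unfold qq
    rw [Finset.sum_div, Finset.sum_div]
    apply Finset.sum_le_sum_of_subset_of_nonneg
    · apply Finset.Icc_subset_Icc
      · exact ⟨le_rfl, by simp only; omega⟩
      · exact ⟨by simp only; omega, by simp only; omega⟩
    · intro v _ _
      have := q_nonneg n v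
      positivity
  have h2 : ∑ v ∈ Icc ((1 : ℤ), -(J : ℤ)) ((J : ℤ), (J : ℤ)), ∑ n ∈ Icc 1 J,
      q n v / n / H981.mu ^ n ≤ ∑ v ∈ Icc ((1 : ℤ), -(J : ℤ)) ((J : ℤ), (J : ℤ)),
        (fun T y : ℕ => H981.mu * (Real.sqrt (PR (max T y)) / Real.sqrt T))
          v.1.toNat v.2.natAbs := by
    apply Finset.sum_le_sum
    intro v hv
    exact A_le hsum J v (Finset.mem_Icc.mp hv).1.1
  have h3 := box_sum (fun T y : ℕ => H981.mu * (Real.sqrt (PR (max T y)) / Real.sqrt T))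
    (fun T y => by positivity) J
  have h4 := double_sum (fun R => Real.sqrt (PR R)) (fun R => Real.sqrt_nonneg _) J
  rw [Finset.sum_comm] at h1
  refine (h1.trans (h2.trans h3)).trans ?_
  simp_rw [← Finset.mul_sum]
  have h5 : ∑ R ∈ Icc 1 J, Real.sqrt (R * PR R) =
      ∑ R ∈ Icc 1 J, Real.sqrt R * Real.sqrt (PR R) := by
    apply Finset.sum_congr rfl
    intro R _
    rw [Real.sqrt_mul (by positivity)]
  rw [h5]
  nlinarith

/-- the renewal inequality for bridges and periodic paths -/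
theorem bridge_real (n : ℕ) : (n : ℝ) * ((H981.B n : ℝ) / H981.mu ^ n) ≤
    ∑ j ∈ range (n + 1), (qq j / H981.mu ^ j) * ((H981.B (n - j) : ℝ) / H981.mu ^ (n - j)) := by
  have hmu := H981.mu_pos
  have h := bridge_ineq n
  have h' : ((n * H981.B n : ℕ) : ℝ) ≤ ((∑ d : Fin (n + 1), (∑ v : ↥(Finset.Icc ((1 : ℤ),
    -((d : ℕ) : ℤ)) (((d : ℕ) : ℤ), ((d : ℕ) : ℤ))), Nat.card {F : ℤ → ℤ × ℤ // IsPer d v F}) *
        H981.B (n - d) : ℕ) : ℝ) := by exact_mod_cast h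
  have e : ((∑ d : Fin (n + 1), (∑ v : ↥(Finset.Icc ((1 : ℤ),
    -((d : ℕ) : ℤ)) (((d : ℕ) : ℤ), ((d : ℕ) : ℤ))), Nat.card {F : ℤ → ℤ × ℤ // IsPer d v F}) *
        H981.B (n - d) : ℕ) : ℝ) = ∑ j ∈ range (n + 1), qq j * (H981.B (n - j) : ℝ) := by
    push_cast
    rw [Finset.sum_range]
    apply Finset.sum_congr rfl
    intro d _
    congr 1
    unfold qq q
    exact Finset.sum_coe_sort (Icc ((1 : ℤ), -((d : ℕ) : ℤ)) (((d : ℕ) : ℤ), ((d : ℕ) : ℤ)))
      (fun v => (Nat.card {F : ℤ → ℤ × ℤ // IsPer d v F} : ℝ))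
  rw [e] at h'
  push_cast at h'
  have h2 : (n : ℝ) * ((H981.B n : ℝ) / H981.mu ^ n) = (n * (H981.B n : ℝ)) / H981.mu ^ n := by ring
  rw [h2]
  calc (n * (H981.B n : ℝ)) / H981.mu ^ n ≤
        (∑ j ∈ range (n + 1), qq j * (H981.B (n - j) : ℝ)) / H981.mu ^ n :=
        div_le_div_of_nonneg_right h' (pow_pos hmu _).le
    _ = _ := by
        rw [Finset.sum_div]
        apply Finset.sum_congr rfl
        intro j hj
        have : j + (n - j) = n := by have := Finset.mem_range.mp hj; omega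
        have e2 : H981.mu ^ n = H981.mu ^ j * H981.mu ^ (n - j) := by rw [← pow_add, this]
        rw [e2]
        field_simp

end Pool.Agent.H98P
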