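import Pool.Agent.H98P.Mom

/-!
Lower bounds for the number of polygons in terms of the correlation length.
-/

set_option autoImplicit false

namespace Pool.Agent.H98P

open Finset Filter Topology
open Pool.Agent.W870.Pg (Fp Fp_pos)
open Pool.Agent.Y981.L2 (pw mass mass_pos mass_mono)

/-- the comparison series -/
noncomputable def vv (R : ℕ) : ℝ := 1 / ((R + 1) * Real.log (R + 1) ^ 2)

theorem vv_nonneg (R : ℕ) : 0 ≤ vv R := by unfold vv; positivity

theorem vv_le {R : ℕ} (hR : 2 ≤ R) :
    vv R ≤ 1 / Real.log R - 1 / Real.log ((R + 1 : ℕ) : ℝ) := by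
  have h2 : (2 : ℝ) ≤ R := by exact_mod_cast hR
  have h0 : (0 : ℝ) < R := by linarith
  have hl1 : 0 < Real.log R := Real.log_pos (by linarith)
  have hl2 : 0 < Real.log ((R : ℝ) + 1) := Real.log_pos (by linarith)
  have hl3 : Real.log R ≤ Real.log ((R : ℝ) + 1) := Real.log_le_log h0 (by linarith)
  have h3 : 1 / ((R : ℝ) + 1) ≤ Real.log ((R : ℝ) + 1) - Real.log R := by
    rw [← Real.log_div (by positivity) h0.ne']
    have h4 := Real.one_sub_inv_le_log_of_pos (show (0 : ℝ) < (R + 1) / R by positivity)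
    rw [inv_div] at h4
    refine le_trans (le_of_eq ?_) h4
    field_simp
    ring
  unfold vv
  push_cast
  rw [div_sub_div _ _ hl1.ne' hl2.ne', div_le_div_iff₀ (by positivity) (by positivity)]
  rw [div_le_iff₀ (by positivity)] at h3
  have h5 : Real.log R * Real.log ((R : ℝ) + 1) ≤ Real.log ((R : ℝ) + 1) ^ 2 := by
    rw [sq]; exact mul_le_mul_of_nonneg_right hl3 hl2.le
  calc 1 * (Real.log R * Real.log ((R : ℝ) + 1)) ≤ 1 * Real.log ((R : ℝ) + 1) ^ 2 := by linarith
    _ ≤ ((Real.log ((R : ℝ) + 1) - Real.log R) * (R + 1)) * Real.log ((R : ℝ) + 1) ^ 2 := by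
        apply mul_le_mul_of_nonneg_right h3 (by positivity)
    _ = _ := by ring

theorem vv_summable : Summable vv := by
  apply summable_of_sum_range_le (c := vv 0 + vv 1 + 1 / Real.log (2 : ℕ)) vv_nonneg
  intro N
  have h1 : ∀ M : ℕ, ∑ R ∈ Ico 2 (2 + M), vv R ≤
      1 / Real.log (2 : ℕ) - 1 / Real.log ((2 + M : ℕ) : ℝ) := by
    intro M
    induction M with
    | zero => simp
    | succ M ih =>
      rw [← add_assoc, Finset.sum_Ico_succ_top (by omega)]
      have := vv_le (show 2 ≤ 2 + M by omega)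
      linarith
  have h2 : ∑ R ∈ range N, vv R ≤ ∑ R ∈ range (2 + N), vv R := by
    apply Finset.sum_le_sum_of_subset_of_nonneg
    · apply Finset.range_subset_range.mpr; omega
    · intro i _ _; exact vv_nonneg i
  have h3 := Finset.sum_range_add_sum_Ico vv (show 2 ≤ 2 + N by omega)
  have h4 := h1 N
  have h5 : 0 ≤ 1 / Real.log ((2 + N : ℕ) : ℝ) := by
    apply div_nonneg zero_le_one
    exact Real.log_natCast_nonneg _
  have h6 : ∑ R ∈ range 2, vv R = vv 0 + vv 1 := by
    rw [Finset.sum_range_succ, Finset.sum_range_one]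
  linarith

theorem w_zero : w 0 = 0 := by unfold w; simp

theorem w_vv {R : ℕ} (hR : 1 ≤ R) : w R * vv R = R := by
  have h1 : (1 : ℝ) ≤ R := by exact_mod_cast hR
  have h2 : 0 < Real.log ((R : ℝ) + 1) := Real.log_pos (by linarith)
  unfold w vv
  field_simp

/-- the divergence, in terms of the correlation length -/
theorem xi_sum : ¬ Summable (fun n : ℕ => Fp n * (X n ^ 3 * Real.log n ^ 8)) := by
  intro hs
  obtain ⟨C, hC, hmom⟩ := mom
  obtain ⟨g, hg⟩ : ∃ g : ℕ → ℝ, g = fun n => C * (Fp n * (X n ^ 3 * Real.log n ^ 8)) +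
      (if n = 1 then (w 1 + w 2) * Fp 1 else 0) := ⟨_, rfl⟩
  have hgs : Summable g := by
    rw [hg]
    apply (hs.mul_left C).add
    exact summable_of_ne_finset_zero (s := {1}) (fun n hn => by
      rw [if_neg (by simpa using hn)])
  have hkey : ∀ J n : ℕ, ∑ R ∈ Icc 1 J, w R * lw (2 * n) R ≤ g n := by
    intro J n
    rcases Nat.lt_or_ge n 2 with h | h
    · interval_cases n
      · rw [hg]
        simp only [mul_zero, Nat.cast_zero, Real.log_zero, zero_ne_one, if_false, add_zero]
        have : ∀ R, lw 0 R = 0 := by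
          intro R; unfold lw; simp
        simp [this]
      · rw [hg]
        simp only [if_true, Nat.cast_one, Real.log_one]
        have h1 : ∑ R ∈ Icc 1 J, w R * lw (2 * 1) R ≤ ∑ R ∈ Icc 1 2, w R * Fp 1 := by
          calc ∑ R ∈ Icc 1 J, w R * lw (2 * 1) R ≤ ∑ R ∈ Icc 1 (max J 2), w R * lw (2 * 1) R := by
                apply Finset.sum_le_sum_of_subset_of_nonneg
                · exact Finset.Icc_subset_Icc_right (le_max_left _ _)
                · intro R _ _; exact mul_nonneg (w_nonneg R) (lw_nonneg _ _)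
            _ = ∑ R ∈ Icc 1 2, w R * lw (2 * 1) R := by
                symm
                apply Finset.sum_subset
                · exact Finset.Icc_subset_Icc_right (le_max_right _ _)
                · intro R hR1 hR2
                  rw [Finset.mem_Icc] at hR1
                  rw [Finset.mem_Icc] at hR2
                  rw [lw_big (by norm_num) (by omega), mul_zero]
            _ ≤ _ := by
                apply Finset.sum_le_sum
                intro R _
                exact mul_le_mul_of_nonneg_left (lw_even_le 1 R) (w_nonneg R)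
        have h2 : ∑ R ∈ Icc 1 2, w R * Fp 1 = (w 1 + w 2) * Fp 1 := by
          rw [show Icc 1 2 = {1, 2} from rfl, Finset.sum_insert (by simp), Finset.sum_singleton]
          ring
        rw [h2] at h1
        simpa using h1
    · rw [hg]
      simp only [if_neg (show n ≠ 1 by omega), add_zero]
      have h1 : ∑ R ∈ Icc 1 J, w R * lw (2 * n) R = Fp n * ∑ R ∈ Icc 1 J, w R * pw n R := by
        rw [Finset.mul_sum]
        apply Finset.sum_congr rfl
        intro R hR
        rw [lw_eq h (Finset.mem_Icc.mp hR).1]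
        ring
      rw [h1]
      calc Fp n * ∑ R ∈ Icc 1 J, w R * pw n R ≤ Fp n * (C * (X n ^ 3 * Real.log n ^ 8)) :=
            mul_le_mul_of_nonneg_left (hmom n h J) (Fp_nonneg n)
        _ = _ := by ring
  have hwP : Summable (fun R : ℕ => w R * PR R) := by
    apply summable_of_sum_range_le (c := ∑' n, g n)
      (fun R => mul_nonneg (w_nonneg R) (PR_nonneg R))
    intro N
    have h1 : ∑ R ∈ range N, w R * PR R ≤ ∑ R ∈ Icc 1 N, w R * PR R := by
      have h2 : ∑ R ∈ range N, w R * PR R ≤ ∑ R ∈ insert 0 (Icc 1 N), w R * PR R := by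
        apply Finset.sum_le_sum_of_subset_of_nonneg
        · intro R hR
          rw [Finset.mem_range] at hR
          simp only [Finset.mem_insert, Finset.mem_Icc]
          omega
        · intro R _ _; exact mul_nonneg (w_nonneg R) (PR_nonneg R)
      rw [Finset.sum_insert (by simp), w_zero, zero_mul, zero_add] at h2
      exact h2
    refine h1.trans ?_
    have h3 : ∑ R ∈ Icc 1 N, w R * PR R = ∑' n : ℕ, ∑ R ∈ Icc 1 N, w R * lw (2 * n) R := by
      rw [Summable.tsum_finsetSum (fun R _ => (lw_even_summable R).mul_left (w R))]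
      apply Finset.sum_congr rfl
      intro R _
      rw [PR_eq, tsum_mul_left]
    rw [h3]
    apply Summable.tsum_le_tsum (hkey N) _ hgs
    exact Summable.of_nonneg_of_le (fun n => Finset.sum_nonneg fun R _ =>
      mul_nonneg (w_nonneg R) (lw_nonneg _ _)) (hkey N) hgs
  apply core'
  apply Summable.of_nonneg_of_le (fun R => Real.sqrt_nonneg _) _
    ((hwP.add vv_summable).mul_left (1 / 2))
  intro R
  rcases Nat.eq_zero_or_pos R with h | h
  · subst h
    simp only [Nat.cast_zero, zero_mul, Real.sqrt_zero]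
    have := mul_nonneg (w_nonneg 0) (PR_nonneg 0)
    have := vv_nonneg 0
    positivity
  · have h1 : (R : ℝ) * PR R = (w R * PR R) * vv R := by
      rw [mul_assoc, mul_comm (PR R), ← mul_assoc, w_vv h]
    have ha : 0 ≤ w R * PR R := mul_nonneg (w_nonneg R) (PR_nonneg R)
    have hb := vv_nonneg R
    rw [h1]
    apply Real.sqrt_le_iff.2
    refine ⟨by positivity, ?_⟩
    nlinarith [sq_nonneg (w R * PR R - vv R)]

/-- for infinitely many `n`, `p_{2n} ≥ μ^{2n} / (n ξ_n³ (log n)^10)` -/
theorem xi_freq : ∃ᶠ n : ℕ in atTop, 1 / (n * X n ^ 3 * Real.log n ^ 10) ≤ Fp n := by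
  intro hev
  apply xi_sum
  have hev2 : ∀ᶠ n : ℕ in atTop, Fp n * (X n ^ 3 * Real.log n ^ 8) ≤ vv (n - 1) := by
    filter_upwards [hev, eventually_ge_atTop 3] with n hn hn3
    push Not at hn
    have h3 : (3 : ℝ) ≤ n := by exact_mod_cast hn3
    have hl : 0 < Real.log n := Real.log_pos (by linarith)
    have hX := X_pos (show 1 ≤ n by omega)
    have e : vv (n - 1) = 1 / (n * Real.log n ^ 2) := by
      unfold vv
      have : ((n - 1 : ℕ) : ℝ) + 1 = n := by
        rw [Nat.cast_sub (by omega)]; push_cast; ring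
      rw [this]
    rw [e]
    calc Fp n * (X n ^ 3 * Real.log n ^ 8) ≤
          1 / (n * X n ^ 3 * Real.log n ^ 10) * (X n ^ 3 * Real.log n ^ 8) :=
          mul_le_mul_of_nonneg_right hn.le (by positivity)
      _ = _ := by field_simp
  have h1 : Summable (fun n : ℕ => vv (n - 1)) := by
    rw [← summable_nat_add_iff 1]
    simpa using vv_summable
  obtain ⟨N, hN⟩ := eventually_atTop.1 hev2
  rw [← summable_nat_add_iff N]
  apply Summable.of_nonneg_of_le _ _ ((summable_nat_add_iff N).2 h1)
  · intro n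
    apply mul_nonneg (Fp_nonneg _)
    rcases Nat.eq_zero_or_pos (n + N) with h | h
    · rw [h]; simp
    · have := X_pos h
      have := Real.log_natCast_nonneg (n + N)
      positivity
  · intro n
    exact hN (n + N) (by omega)

theorem loglog_nat : Tendsto (fun n : ℕ => Real.log (Real.log n)) atTop atTop :=
  Real.tendsto_log_atTop.comp (Real.tendsto_log_atTop.comp tendsto_natCast_atTop_atTop)

/-- for infinitely many `n`, `p_{2n} ≥ μ^{2n} n^{-4 + c / log log n}` -/
theorem pow_freq : ∃ c : ℝ, 0 < c ∧ ∃ᶠ n : ℕ in atTop,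
    (n : ℝ) ^ (-4 + c / Real.log (Real.log n)) ≤ Fp n := by
  obtain ⟨c, hc, hmass⟩ := Pool.Agent.Y981.L2X.le_mass
  refine ⟨c, hc, ?_⟩
  have hT : Tendsto (fun n : ℕ => 1 / (2 * (n : ℝ))) atTop (𝓝[>] 0) := by
    apply tendsto_nhdsWithin_iff.2
    constructor
    · have h1 : Tendsto (fun n : ℕ => 2 * (n : ℝ)) atTop atTop :=
        tendsto_natCast_atTop_atTop.const_mul_atTop (by norm_num)
      refine h1.inv_tendsto_atTop.congr (fun n => ?_)
      rw [Pi.inv_apply, one_div]
    · filter_upwards [eventually_ge_atTop 1] with n hn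
      have : (0 : ℝ) < n := by exact_mod_cast (by omega : 0 < n)
      exact Set.mem_Ioi.2 (by positivity)
  have h1 := hT.eventually hmass
  have h2 : ∀ᶠ x : ℝ in atTop, x ^ 2 * Real.exp (-x) < c / 13 :=
    (Real.tendsto_pow_mul_exp_neg_atTop_nhds_zero 2).eventually_lt_const (by positivity)
  have h3 := loglog_nat.eventually h2
  have h4 := loglog_nat.eventually_ge_atTop 2
  refine (xi_freq.and_eventually (h1.and (h3.and (h4.and (eventually_ge_atTop 3))))).mono ?_
  rintro n ⟨hf, hm, hx, hl, hn3⟩
  have hn : (3 : ℝ) ≤ n := by exact_mod_cast hn3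
  have hn0 : (0 : ℝ) < n := by linarith
  refine le_trans ?_ hf
  obtain ⟨L, hL⟩ : ∃ L, L = Real.log n := ⟨_, rfl⟩
  obtain ⟨l, hll⟩ : ∃ l, l = Real.log (Real.log n) := ⟨_, rfl⟩
  have hL0 : 0 < L := by rw [hL]; exact Real.log_pos (by linarith)
  have hLe : L = Real.exp l := by rw [hll, ← hL, Real.exp_log hL0]
  rw [← hll] at hx hl ⊢
  -- the bound of `X n`
  have he : 1 / (1 / (2 * (n : ℝ))) = 2 * n := by field_simp
  rw [he] at hm
  obtain ⟨l2, hl2⟩ : ∃ l2, l2 = Real.log (Real.log (2 * (n : ℝ))) := ⟨_, rfl⟩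
  rw [← hl2] at hm
  have hlog2n : Real.log (2 * (n : ℝ)) = Real.log 2 + L := by
    rw [Real.log_mul (by norm_num) hn0.ne', hL]
  have hlog2 : 0 < Real.log 2 := Real.log_pos (by norm_num)
  have hlog2' : Real.log 2 < 1 := by have := Real.log_two_lt_d9; linarith
  have hL1 : 1 ≤ L := by rw [hLe]; exact Real.one_le_exp (by linarith)
  have hl2l : l ≤ l2 := by
    rw [hl2, hlog2n, hll, ← hL]
    exact Real.log_le_log hL0 (by linarith)
  have hl2u : l2 ≤ 3 / 2 * l := by
    rw [hl2, hlog2n]
    calc Real.log (Real.log 2 + L) ≤ Real.log (2 * L) := Real.log_le_log (by positivity) (by linarith)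
      _ = Real.log 2 + l := by rw [Real.log_mul (by norm_num) hL0.ne', hll, ← hL]
      _ ≤ _ := by linarith
  have hl0 : 0 < l := by linarith
  have hl20 : 0 < l2 := by linarith
  have hXn : X n ≤ (2 * (n : ℝ)) ^ (1 - c / l2) := by
    have hp : 0 < (1 / (2 * (n : ℝ))) ^ (1 - c / l2) := by positivity
    have h5 : X n ≤ 1 / (1 / (2 * (n : ℝ))) ^ (1 - c / l2) := by
      unfold X
      exact one_div_le_one_div_of_le hp hm
    refine h5.trans (le_of_eq ?_)
    rw [one_div (2 * (n : ℝ)), Real.inv_rpow (by positivity), one_div, inv_inv]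
  have hX := X_pos (show 1 ≤ n by omega)
  rw [← hL]
  -- logarithms
  rw [← Real.log_le_log_iff (by positivity) (by positivity)]
  rw [Real.log_rpow hn0, ← hL, one_div, Real.log_inv, Real.log_mul (by positivity) (by positivity),
    Real.log_mul (by positivity) (by positivity), Real.log_pow, Real.log_pow, ← hL]
  have hlX : Real.log (X n) ≤ (1 - c / l2) * (Real.log 2 + L) := by
    have := Real.log_le_log hX hXn
    rwa [Real.log_rpow (by positivity), hlog2n] at this
  have hlL : Real.log L = l := by rw [hll, ← hL]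
  rw [hlL]
  push_cast
  -- the final inequality
  have hx2 : 13 * l ^ 2 ≤ c * L := by
    rw [hLe]
    rw [Real.exp_neg] at hx
    have hexp := Real.exp_pos l
    rw [← div_eq_mul_inv, div_lt_iff₀ hexp] at hx
    linarith
  have hcl : c * L / l2 ≥ 2 / 3 * (c * L / l) := by
    rw [ge_iff_le, ← mul_div_assoc, div_le_div_iff₀ hl0 hl20]
    have : 0 < c * L := by positivity
    nlinarith
  have hq : 13 * l ≤ c * L / l := by
    rw [le_div_iff₀ hl0]; nlinarith
  have h6 : (1 - c / l2) * (Real.log 2 + L) ≤ Real.log 2 + L - c * L / l2 := by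
    have h7 : 0 ≤ c / l2 * Real.log 2 := by positivity
    have h8 : c / l2 * L = c * L / l2 := by ring
    nlinarith
  have h9 : c / l * L = c * L / l := by ring
  nlinarith

end Pool.Agent.H98P
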